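import Mathlib

/-!
# Maps fixing an ultrafilter on `ℕ`

If `f(u) = u` then `f n = n` for `u`-almost all `n`.
-/

set_option autoImplicit false

namespace Pool.Agent.R595.Fix

open Filter Set

/-- parity of the number of steps of `n < f n < f (f n) < ...` which stay below `N` -/
def par (f : ℕ → ℕ) (N : ℕ) (n : ℕ) : Bool :=
  if h : n < f n ∧ f n ≤ N then !(par f N (f n)) else true
termination_by N - n
decreasing_by omega

theorem par_ne {f : ℕ → ℕ} {N n : ℕ} (h : n < f n) (h' : f n ≤ N) :
    par f N n ≠ par f N (f n) := by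
  rw [par, dif_pos ⟨h, h'⟩]
  simp

/-- parity of the number of steps of `n > f n > f (f n) > ...` -/
def dpar (f : ℕ → ℕ) (n : ℕ) : Bool :=
  if h : f n < n then !(dpar f (f n)) else true
termination_by n
decreasing_by omega

theorem dpar_ne {f : ℕ → ℕ} {n : ℕ} (h : f n < n) : dpar f n ≠ dpar f (f n) := by
  rw [dpar, dif_pos h]
  simp

theorem not_two_colour {f : ℕ → ℕ} {u : Ultrafilter ℕ} (hf : u.map f = u) (c : ℕ → Bool)
    {A : Set ℕ} (hA : A ∈ u) (hc : ∀ n ∈ A, c n ≠ c (f n)) : False := by
  have key : ∀ b : Bool, {n | c n = b} ∉ u := by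
    intro b hb
    have h1 : f ⁻¹' {n | c n = b} ∈ u := by
      have : {n | c n = b} ∈ u.map f := by rw [hf]; exact hb
      exact this
    obtain ⟨n, ⟨hn1, hn2⟩, hn3⟩ := Ultrafilter.nonempty_of_mem
      (Filter.inter_mem (Filter.inter_mem hb h1) hA)
    simp only [mem_ofPred_eq, mem_preimage] at hn1 hn2
    exact hc n hn3 (hn1.trans hn2.symm)
  have h2 : {n | c n = true} ∪ {n | c n = false} ∈ u := by
    refine Filter.mem_of_superset Filter.univ_mem ?_
    intro n _
    rcases hcn : c n with _ | _
    · exact Or.inr hcn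
    · exact Or.inl hcn
  rcases Ultrafilter.union_mem_iff.1 h2 with h3 | h3
  · exact key _ h3
  · exact key _ h3

/-- **Fixed point theorem.** -/
theorem eventually_eq_of_map_eq {f : ℕ → ℕ} {u : Ultrafilter ℕ} (hf : u.map f = u) :
    {n | f n = n} ∈ u := by
  have h1 : {n | f n < n} ∉ u := fun h => not_two_colour hf (dpar f) h fun n hn => dpar_ne hn
  have h2 : {n | n < f n} ∉ u := by
    intro h
    let v : Ultrafilter ℕ := hyperfilter ℕ
    have hv : ∀ k : ℕ, {N | k ≤ N} ∈ v := by
      intro k
      apply mem_hyperfilter_of_finite_compl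
      refine (Set.finite_lt_nat k).subset ?_
      intro N hN
      simpa using hN
    let c : ℕ → Bool := fun n => by
      classical exact decide ({N | par f N n = true} ∈ v)
    refine not_two_colour hf c h fun n hn hcn => ?_
    have h3 : ({N | par f N n = true} ∈ v) ↔ ({N | par f N (f n) = true} ∈ v) := by
      simpa [c] using hcn
    by_cases h4 : {N | par f N n = true} ∈ v
    · have h5 := h3.1 h4
      obtain ⟨N, ⟨hN1, hN2⟩, hN3⟩ := Ultrafilter.nonempty_of_mem
        (Filter.inter_mem (Filter.inter_mem h4 h5) (hv (f n)))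
      exact par_ne hn hN3 (hN1.trans hN2.symm)
    · have h5 : {N | par f N (f n) = true} ∉ v := fun h => h4 (h3.2 h)
      have h6 := Ultrafilter.compl_mem_iff_notMem.2 h4
      have h7 := Ultrafilter.compl_mem_iff_notMem.2 h5
      obtain ⟨N, ⟨hN1, hN2⟩, hN3⟩ := Ultrafilter.nonempty_of_mem
        (Filter.inter_mem (Filter.inter_mem h6 h7) (hv (f n)))
      refine par_ne hn hN3 ?_
      simp only [mem_compl_iff, mem_ofPred_eq, Bool.not_eq_true] at hN1 hN2
      rw [hN1, hN2]
  have h3 : ({n | f n < n} ∪ {n | n < f n}) ∉ u := by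
    intro h
    rcases Ultrafilter.union_mem_iff.1 h with h | h
    · exact h1 h
    · exact h2 h
  have h4 := Ultrafilter.compl_mem_iff_notMem.2 h3
  refine Filter.mem_of_superset h4 ?_
  intro n hn
  simp only [mem_compl_iff, mem_union, mem_ofPred_eq, not_or, not_lt] at hn
  exact le_antisymm hn.2 hn.1

end Pool.Agent.R595.Fix
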