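import Pool.Agent.R595.Fix

/-!
# Weak P-points: two representations as discrete limits, and suprema in the Rudin-Keisler order
-/

set_option autoImplicit false

namespace Pool.Agent.R595.WP

open Filter Set

/-- nonprincipal ultrafilters on `ℕ` -/
def NP (u : Ultrafilter ℕ) : Prop := ∀ n : ℕ, {n} ∉ u

/-- weak P-points -/
def WeakP (u : Ultrafilter ℕ) : Prop :=
  NP u ∧ ∀ S : Set (Ultrafilter ℕ), S.Countable → (∀ p ∈ S, NP p) → u ∉ S → u ∉ closure S

/-- Rudin-Keisler order -/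
def RK (u v : Ultrafilter ℕ) : Prop := ∃ f : ℕ → ℕ, v.map f = u

theorem mem_bind {α β : Type*} {a : Ultrafilter α} {x : α → Ultrafilter β} {S : Set β} :
    S ∈ a.bind x ↔ {n | S ∈ x n} ∈ a := Iff.rfl

theorem mem_map' {α β : Type*} {a : Ultrafilter α} {f : α → β} {S : Set β} :
    S ∈ a.map f ↔ f ⁻¹' S ∈ a := Iff.rfl

theorem mem_closure {α : Type*} {u : Ultrafilter α} {S : Set (Ultrafilter α)} :
    u ∈ closure S ↔ ∀ A ∈ u, ∃ p ∈ S, A ∈ p := by
  constructor
  · intro h A hA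
    obtain ⟨p, hp1, hp2⟩ := mem_closure_iff.1 h {v | A ∈ v} (ultrafilter_isOpen_basic A) hA
    exact ⟨p, hp2, hp1⟩
  · intro h
    rw [mem_closure_iff]
    intro O hO huO
    obtain ⟨B, ⟨A, rfl⟩, hA, hB⟩ :=
      ultrafilterBasis_is_basis.exists_subset_of_mem_open (a := u) (u := O) huO hO
    obtain ⟨p, hp, hAp⟩ := h A hA
    exact ⟨p, hB hAp, hp⟩

theorem eq_of_le {α : Type*} {u v : Ultrafilter α} (h : ∀ S, S ∈ u → S ∈ v) : u = v := by
  apply Ultrafilter.eq_of_le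
  intro S hS
  have hS' : S ∈ v := hS
  by_contra hcon
  have hcon' : S ∉ u := hcon
  have h1 := h _ (Ultrafilter.compl_mem_iff_notMem.2 hcon')
  exact (Ultrafilter.compl_mem_iff_notMem.1 h1) hS'

theorem compl_mem {α : Type*} {u : Ultrafilter α} {S : Set α} : Sᶜ ∈ u ↔ S ∉ u :=
  Ultrafilter.compl_mem_iff_notMem

/-- separation of two countable separated families -/
theorem sep {α : Type*} {x y : ℕ → Ultrafilter α} {I J : Set ℕ}
    (hx : ∀ i ∈ I, x i ∉ closure {v | ∃ j ∈ J, v = y j})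
    (hy : ∀ j ∈ J, y j ∉ closure {v | ∃ i ∈ I, v = x i}) :
    ∃ P Q : Set α, Disjoint P Q ∧ (∀ i ∈ I, P ∈ x i) ∧ ∀ j ∈ J, Q ∈ y j := by
  have hS : ∀ i, ∃ S : Set α, i ∈ I → S ∈ x i ∧ ∀ j ∈ J, S ∉ y j := by
    intro i
    by_cases hi : i ∈ I
    · have := hx i hi
      rw [mem_closure] at this
      push Not at this
      obtain ⟨S, hS, hS'⟩ := this
      exact ⟨S, fun _ => ⟨hS, fun j hj => hS' _ ⟨j, hj, rfl⟩⟩⟩
    · exact ⟨∅, fun h => absurd h hi⟩
  have hT : ∀ j, ∃ T : Set α, j ∈ J → T ∈ y j ∧ ∀ i ∈ I, T ∉ x i := by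
    intro j
    by_cases hj : j ∈ J
    · have := hy j hj
      rw [mem_closure] at this
      push Not at this
      obtain ⟨T, hT, hT'⟩ := this
      exact ⟨T, fun _ => ⟨hT, fun i hi => hT' _ ⟨i, hi, rfl⟩⟩⟩
    · exact ⟨∅, fun h => absurd h hj⟩
  choose S hS using hS
  choose T hT using hT
  refine ⟨⋃ i ∈ I, (S i ∩ ⋂ j ∈ {j | j ∈ J ∧ j ≤ i}, (T j)ᶜ),
    ⋃ j ∈ J, (T j ∩ ⋂ i ∈ {i | i ∈ I ∧ i ≤ j}, (S i)ᶜ), ?_, ?_, ?_⟩
  · rw [Set.disjoint_left]
    intro z hz1 hz2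
    simp only [mem_iUnion] at hz1 hz2
    obtain ⟨i, hi, hzi, hzi'⟩ := hz1
    obtain ⟨j, hj, hzj, hzj'⟩ := hz2
    simp only [mem_iInter, mem_ofPred_eq, mem_compl_iff] at hzi' hzj'
    rcases le_total i j with h | h
    · exact hzj' i ⟨hi, h⟩ hzi
    · exact hzi' j ⟨hj, h⟩ hzj
  · intro i hi
    refine Filter.mem_of_superset (Filter.inter_mem (hS i hi).1 ?_)
      (Set.subset_biUnion_of_mem (u := fun i => S i ∩ ⋂ j ∈ {j | j ∈ J ∧ j ≤ i}, (T j)ᶜ) hi)
    have hfin : {j | j ∈ J ∧ j ≤ i}.Finite := (Set.finite_le_nat i).subset fun j hj => hj.2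
    exact (Filter.biInter_mem hfin).2 fun j hj => compl_mem.2 ((hT j hj.1).2 i hi)
  · intro j hj
    refine Filter.mem_of_superset (Filter.inter_mem (hT j hj).1 ?_)
      (Set.subset_biUnion_of_mem (u := fun j => T j ∩ ⋂ i ∈ {i | i ∈ I ∧ i ≤ j}, (S i)ᶜ) hj)
    have hfin : {i | i ∈ I ∧ i ≤ j}.Finite := (Set.finite_le_nat j).subset fun i hi => hi.2
    exact (Filter.biInter_mem hfin).2 fun i hi => compl_mem.2 ((hS i hi.1).2 j hj)

theorem map_of_rep {a w : Ultrafilter ℕ} {x : ℕ → Ultrafilter ℕ} {p : ℕ → ℕ} (hw : w = a.bind x)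
    (hp : {n | p ⁻¹' {n} ∈ x n} ∈ a) : w.map p = a := by
  symm
  apply eq_of_le
  intro S hS
  rw [mem_map', hw, mem_bind]
  filter_upwards [hS, hp] with n hn1 hn2
  refine Filter.mem_of_superset hn2 ?_
  intro z hz
  simp only [mem_preimage, mem_singleton_iff] at hz ⊢
  rw [hz]
  exact hn1

/-- the one sided case of two representations -/
theorem rep_side {a b w : Ultrafilter ℕ} (ha : NP a) (hb : WeakP b) {x y : ℕ → Ultrafilter ℕ}
    (hwa : w = a.bind x) (hwb : w = b.bind y) {p q : ℕ → ℕ}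
    (hp : {n | p ⁻¹' {n} ∈ x n} ∈ a) (hq : {m | q ⁻¹' {m} ∈ y m} ∈ b)
    (hcl : {n | x n ∈ closure {v | ∃ m ∈ {m | q ⁻¹' {m} ∈ y m}, v = y m}} ∈ a) :
    ∃ j : ℕ → ℕ, {n | x n = y (j n)} ∈ a ∧ a.map j = b := by
  classical
  set B0 : Set ℕ := {m | q ⁻¹' {m} ∈ y m} with hB0
  set A1 : Set ℕ := {n | p ⁻¹' {n} ∈ x n} ∩ {n | x n ∈ closure {v | ∃ m ∈ B0, v = y m}} with hA1
  have hA1a : A1 ∈ a := Filter.inter_mem hp hcl
  -- the description of `x n` by `(x n).map q`
  have key1 : ∀ n ∈ A1, ∀ S, S ∈ x n → {m | S ∈ y m} ∈ (x n).map q := by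
    intro n hn S hS
    by_contra hcon
    have h1 : {m | S ∈ y m}ᶜ ∈ (x n).map q := compl_mem.2 hcon
    have h2 : S ∩ q ⁻¹' {m | S ∈ y m}ᶜ ∈ x n := Filter.inter_mem hS h1
    obtain ⟨v, ⟨m, hm, rfl⟩, hv⟩ := mem_closure.1 hn.2 _ h2
    obtain ⟨z, hz1, hz2⟩ := Ultrafilter.nonempty_of_mem (Filter.inter_mem hv hm)
    have h3 : q z = m := hz2
    have h4 : q z ∈ {m | S ∈ y m}ᶜ := hz1.2
    rw [h3] at h4
    exact h4 (Filter.mem_of_superset hv inter_subset_left)
  have key : ∀ n ∈ A1, x n = ((x n).map q).bind y := by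
    intro n hn
    exact eq_of_le fun S hS => key1 n hn S hS
  have hqb : w.map q = b := map_of_rep hwb hq
  have hpa : w.map p = a := map_of_rep hwa hp
  have hblim : ∀ S, S ∈ b ↔ {n | S ∈ (x n).map q} ∈ a := by
    intro S
    rw [← hqb, mem_map', hwa, mem_bind]
    rfl
  by_cases hN : {n | n ∈ A1 ∧ NP ((x n).map q)} ∈ a
  · exfalso
    set C : Set (Ultrafilter ℕ) := {v | ∃ n ∈ {n | n ∈ A1 ∧ NP ((x n).map q)}, v = (x n).map q}
      with hC
    have hCc : C.Countable := by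
      have : C ⊆ range (fun n => (x n).map q) := by
        rintro v ⟨n, _, rfl⟩
        exact ⟨n, rfl⟩
      exact (countable_range _).mono this
    have hbC : b ∈ closure C := by
      rw [mem_closure]
      intro S hS
      have h1 := (hblim S).1 hS
      obtain ⟨n, hn1, hn2⟩ := Ultrafilter.nonempty_of_mem (Filter.inter_mem h1 hN)
      exact ⟨_, ⟨n, hn2, rfl⟩, hn1⟩
    have hbC' : b ∈ C := by
      by_contra hcon
      refine hb.2 C hCc ?_ hcon hbC
      rintro v ⟨n, hn, rfl⟩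
      exact hn.2
    obtain ⟨n, ⟨hn1, hn2⟩, hn3⟩ := hbC'
    have h1 : x n = w := by
      rw [key n hn1, ← hn3, hwb]
    have h2 : p ⁻¹' {n} ∈ w := by
      rw [← h1]
      exact hn1.1
    have h3 : {n} ∈ w.map p := h2
    rw [hpa] at h3
    exact ha n h3
  · have hN' : {n | n ∈ A1 ∧ ¬ NP ((x n).map q)} ∈ a := by
      filter_upwards [compl_mem.2 hN, hA1a] with n hn1 hn2
      refine ⟨hn2, fun h => hn1 ⟨hn2, h⟩⟩
    have hj : ∀ n, ∃ k, ¬ NP ((x n).map q) → {k} ∈ (x n).map q := by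
      intro n
      by_cases h : NP ((x n).map q)
      · exact ⟨0, fun h' => absurd h h'⟩
      · unfold NP at h
        push Not at h
        obtain ⟨k, hk⟩ := h
        exact ⟨k, fun _ => hk⟩
    choose j hj using hj
    refine ⟨j, ?_, ?_⟩
    · filter_upwards [hN'] with n hn
      apply eq_of_le
      intro S hS
      have h1 := key1 n hn.1 S hS
      obtain ⟨m, hm1, hm2⟩ := Ultrafilter.nonempty_of_mem (Filter.inter_mem h1 (hj n hn.2))
      have h3 : m = j n := hm2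
      rw [← h3]
      exact hm1
    · symm
      apply eq_of_le
      intro S hS
      rw [mem_map']
      filter_upwards [(hblim S).1 hS, hN'] with n hn1 hn2
      obtain ⟨m, hm1, hm2⟩ := Ultrafilter.nonempty_of_mem (Filter.inter_mem hn1 (hj n hn2.2))
      have h3 : m = j n := hm2
      simp only [mem_preimage]
      rw [← h3]
      exact hm1

/-- **Two representations.** -/
theorem two_rep {a b w : Ultrafilter ℕ} (ha : WeakP a) (hb : WeakP b) {x y : ℕ → Ultrafilter ℕ}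
    (hwa : w = a.bind x) (hwb : w = b.bind y) {p q : ℕ → ℕ}
    (hp : {n | p ⁻¹' {n} ∈ x n} ∈ a) (hq : {m | q ⁻¹' {m} ∈ y m} ∈ b) :
    (∃ j : ℕ → ℕ, {n | x n = y (j n)} ∈ a ∧ a.map j = b) ∨
    (∃ j : ℕ → ℕ, {m | y m = x (j m)} ∈ b ∧ b.map j = a) := by
  classical
  set A0 : Set ℕ := {n | p ⁻¹' {n} ∈ x n} with hA0
  set B0 : Set ℕ := {m | q ⁻¹' {m} ∈ y m} with hB0
  by_cases h1 : {n | x n ∈ closure {v | ∃ m ∈ B0, v = y m}} ∈ a
  · exact Or.inl (rep_side ha.1 hb hwa hwb hp hq h1)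
  by_cases h2 : {m | y m ∈ closure {v | ∃ n ∈ A0, v = x n}} ∈ b
  · exact Or.inr (rep_side hb.1 ha hwb hwa hq hp h2)
  exfalso
  set I : Set ℕ := A0 ∩ {n | x n ∈ closure {v | ∃ m ∈ B0, v = y m}}ᶜ
  set J : Set ℕ := B0 ∩ {m | y m ∈ closure {v | ∃ n ∈ A0, v = x n}}ᶜ
  have hI : I ∈ a := Filter.inter_mem hp (compl_mem.2 h1)
  have hJ : J ∈ b := Filter.inter_mem hq (compl_mem.2 h2)
  obtain ⟨P, Q, hPQ, hP, hQ⟩ := sep (x := x) (y := y) (I := I) (J := J)
    (fun i hi h => hi.2 (closure_mono (by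
      rintro v ⟨j, hj, rfl⟩
      exact ⟨j, hj.1, rfl⟩) h))
    (fun j hj h => hj.2 (closure_mono (by
      rintro v ⟨i, hi, rfl⟩
      exact ⟨i, hi.1, rfl⟩) h))
  have hPw : P ∈ w := by
    rw [hwa, mem_bind]
    exact Filter.mem_of_superset hI hP
  have hQw : Q ∈ w := by
    rw [hwb, mem_bind]
    exact Filter.mem_of_superset hJ hQ
  obtain ⟨z, hz1, hz2⟩ := Ultrafilter.nonempty_of_mem (Filter.inter_mem hPw hQw)
  exact Set.disjoint_left.1 hPQ hz1 hz2

/-- tensor product -/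
def tens (a b : Ultrafilter ℕ) : Ultrafilter ℕ := a.bind fun n => b.map (Nat.pair n)

theorem rk_refl (a : Ultrafilter ℕ) : RK a a := ⟨id, Ultrafilter.map_id a⟩

theorem rk_trans {a b c : Ultrafilter ℕ} (h1 : RK a b) (h2 : RK b c) : RK a c := by
  obtain ⟨f, rfl⟩ := h1
  obtain ⟨g, rfl⟩ := h2
  exact ⟨f ∘ g, (Ultrafilter.map_map _ _ _).symm⟩

theorem rk_tens_left (a b : Ultrafilter ℕ) : RK a (tens a b) := by
  refine ⟨fun z => (Nat.unpair z).1, ?_⟩
  symm
  apply eq_of_le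
  intro S hS
  rw [mem_map', tens, mem_bind]
  filter_upwards [hS] with n hn
  rw [mem_map']
  refine Filter.mem_of_superset Filter.univ_mem ?_
  intro m _
  simpa using hn

theorem rk_tens_right (a b : Ultrafilter ℕ) : RK b (tens a b) := by
  refine ⟨fun z => (Nat.unpair z).2, ?_⟩
  symm
  apply eq_of_le
  intro S hS
  rw [mem_map', tens, mem_bind]
  refine Filter.mem_of_superset Filter.univ_mem ?_
  intro n _
  simp only [mem_ofPred_eq]
  rw [mem_map']
  refine Filter.mem_of_superset hS ?_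
  intro m hm
  simpa using hm

/-- If `w` is below `a ⊗ b` and above the weak P-points `a` and `b` which are not below one
another, then `w` is an `a`-limit of ultrafilters living on disjoint sets. -/
theorem rep_of_le {a b w : Ultrafilter ℕ} (ha : WeakP a) (hab : ¬ RK a b) (hba : ¬ RK b a)
    (h1 : RK a w) (h2 : RK b w) (h3 : RK w (tens a b)) :
    ∃ (x : ℕ → Ultrafilter ℕ) (p : ℕ → ℕ), w = a.bind x ∧ {n | p ⁻¹' {n} ∈ x n} ∈ a := by
  classical
  obtain ⟨h, hh⟩ := h1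
  obtain ⟨f, hf⟩ := h3
  let x : ℕ → Ultrafilter ℕ := fun n => b.map (fun m => f (Nat.pair n m))
  have hw : w = a.bind x := by
    rw [← hf]
    rfl
  -- the images under `h`
  have hlim : ∀ S, S ∈ a ↔ {n | S ∈ (x n).map h} ∈ a := by
    intro S
    conv_lhs => rw [← hh, mem_map', hw, mem_bind]
    rfl
  by_cases hN : {n | NP ((x n).map h)} ∈ a
  · exfalso
    set C : Set (Ultrafilter ℕ) := {v | ∃ n ∈ {n | NP ((x n).map h)}, v = (x n).map h}
      with hC
    have hCc : C.Countable := by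
      have : C ⊆ range (fun n => (x n).map h) := by
        rintro v ⟨n, _, rfl⟩
        exact ⟨n, rfl⟩
      exact (countable_range _).mono this
    have haC : a ∈ closure C := by
      rw [mem_closure]
      intro S hS
      obtain ⟨n, hn1, hn2⟩ := Ultrafilter.nonempty_of_mem (Filter.inter_mem ((hlim S).1 hS) hN)
      exact ⟨_, ⟨n, hn2, rfl⟩, hn1⟩
    have haC' : a ∈ C := by
      by_contra hcon
      refine ha.2 C hCc ?_ hcon haC
      rintro v ⟨n, hn, rfl⟩
      exact hn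
    obtain ⟨n, _, hn3⟩ := haC'
    apply hab
    refine ⟨h ∘ (fun m => f (Nat.pair n m)), ?_⟩
    rw [← Ultrafilter.map_map]
    exact hn3.symm
  · have hj : ∀ n, ∃ k, ¬ NP ((x n).map h) → {k} ∈ (x n).map h := by
      intro n
      by_cases h : NP ((x n).map h)
      · exact ⟨0, fun h' => absurd h h'⟩
      · unfold NP at h
        push Not at h
        obtain ⟨k, hk⟩ := h
        exact ⟨k, fun _ => hk⟩
    choose j hj using hj
    have hN' : {n | ¬ NP ((x n).map h)} ∈ a := compl_mem.2 hN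
    have hja : a.map j = a := by
      symm
      apply eq_of_le
      intro S hS
      rw [mem_map']
      filter_upwards [(hlim S).1 hS, hN'] with n hn1 hn2
      obtain ⟨m, hm1, hm2⟩ := Ultrafilter.nonempty_of_mem (Filter.inter_mem hn1 (hj n hn2))
      have h3 : m = j n := hm2
      simp only [mem_preimage]
      rw [← h3]
      exact hm1
    have hfix := Fix.eventually_eq_of_map_eq hja
    refine ⟨x, h, hw, ?_⟩
    filter_upwards [hfix, hN'] with n hn1 hn2
    have h4 := hj n hn2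
    rw [show j n = n from hn1] at h4
    exact h4

/-- Two weak P-points which are not below one another have no least upper bound in the
Rudin-Keisler order. -/
theorem no_sup {a b w : Ultrafilter ℕ} (ha : WeakP a) (hb : WeakP b) (hab : ¬ RK a b)
    (hba : ¬ RK b a) (h1 : RK a w) (h2 : RK b w) (h3 : RK w (tens a b)) (h4 : RK w (tens b a)) :
    False := by
  obtain ⟨x, p, hwx, hp⟩ := rep_of_le ha hab hba h1 h2 h3
  obtain ⟨y, q, hwy, hq⟩ := rep_of_le hb hba hab h2 h1 h4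
  rcases two_rep ha hb hwx hwy hp hq with ⟨j, _, hj⟩ | ⟨j, _, hj⟩
  · exact hba ⟨j, hj⟩
  · exact hab ⟨j, hj⟩

end Pool.Agent.R595.WP
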