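import Pool.Agent.R595.Rec
import Pool.Agent.R595.WP

/-!
# Kunen's theorem: there are `𝔠` pairwise incomparable weak P-points
-/

set_option autoImplicit false

namespace Pool.Agent.R595.Kun

open Filter Set Cardinal Pool.Agent.R595.WP

theorem np_of_le {u : Ultrafilter ℕ} (h : (u : Filter ℕ) ≤ cofinite) : NP u := by
  intro n hn
  have h1 : ({n} : Set ℕ)ᶜ ∈ u := h (Set.finite_singleton n).compl_mem_cofinite
  exact (compl_mem.1 h1) hn

theorem np_notMem_finite {u : Ultrafilter ℕ} (h : NP u) {S : Set ℕ} (hS : S.Finite) : S ∉ u := by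
  intro hSu
  have := (Ultrafilter.finite_biUnion_mem_iff (f := u) hS (s := fun n => ({n} : Set ℕ))).mp (by
    simpa using hSu)
  obtain ⟨n, _, hn⟩ := this
  exact h n hn

/-- OK ultrafilters are weak P-points. -/
theorem weakP_of_ok {u : Ultrafilter ℕ} (hu : (u : Filter ℕ) ≤ cofinite)
    (hok : ∀ C : ℕ → Set ℕ, Antitone C → (∀ n, C n ∈ u) → OKFor (u : Filter ℕ) C) : WeakP u := by
  classical
  refine ⟨np_of_le hu, fun S hS hnp huS => ?_⟩
  rcases S.eq_empty_or_nonempty with rfl | hne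
  · simp
  obtain ⟨p, rfl⟩ := hS.exists_eq_range hne
  have hB : ∀ n, ∃ B : Set ℕ, B ∈ u ∧ B ∉ p n := by
    intro n
    by_contra hcon
    push Not at hcon
    exact huS ⟨n, (eq_of_le hcon).symm⟩
  choose B hB using hB
  let C : ℕ → Set ℕ := fun n => ⋂ m ∈ Finset.range n, B m
  have hC : Antitone C := by
    intro n m hnm z hz
    simp only [C, mem_iInter, Finset.mem_range] at hz ⊢
    exact fun i hi => hz i (hi.trans_le hnm)
  have hCu : ∀ n, C n ∈ u := fun n =>
    (Filter.biInter_finset_mem _).2 fun m _ => (hB m).1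
  obtain ⟨D, hD1, hD2⟩ := hok C hC hCu
  have hfin : ∀ m, {α | D α ∈ p m}.Finite := by
    intro m
    by_contra hcon
    obtain ⟨a, ha1, ha2⟩ := (Set.not_finite.mp hcon).exists_subset_card_eq (m + 1)
    have hne : a.Nonempty := by
      rw [← Finset.card_pos]
      omega
    have h1 : (⋂ α ∈ a, D α) ∈ p m := (Filter.biInter_finset_mem _).2 fun α hα => ha1 hα
    have h2 := hD2 a hne
    have h3 : ((⋂ α ∈ a, D α) \ C a.card)ᶜ ∈ p m :=
      compl_mem.2 (np_notMem_finite (hnp (p m) ⟨m, rfl⟩) h2)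
    have h4 : C a.card ∈ p m := by
      refine Filter.mem_of_superset (Filter.inter_mem h1 h3) ?_
      rintro z ⟨hz1, hz2⟩
      by_contra hz3
      exact hz2 ⟨hz1, hz3⟩
    apply (hB m).2
    refine Filter.mem_of_superset h4 ?_
    intro z hz
    simp only [C, mem_iInter, Finset.mem_range] at hz
    exact hz m (by omega)
  have hcount : (⋃ m, {α | D α ∈ p m}).Countable := countable_iUnion fun m => (hfin m).countable
  obtain ⟨α, hα⟩ : ∃ α, α ∉ ⋃ m, {α | D α ∈ p m} := by
    by_contra hcon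
    push Not at hcon
    have h1 : (⋃ m, {α | D α ∈ p m}) = (Set.univ : Set (Set ℕ)) := eq_univ_of_forall hcon
    rw [h1] at hcount
    have h2 : #(Set ℕ) ≤ ℵ₀ := by
      rw [← Cardinal.mk_univ]
      exact Cardinal.le_aleph0_iff_set_countable.2 hcount
    have h3 : #(Set ℕ) = continuum := by simp
    rw [h3] at h2
    exact absurd Cardinal.aleph0_lt_continuum (not_lt.2 h2)
  rw [mem_closure]
  push Not
  refine ⟨D α, hD1 α, ?_⟩
  rintro q ⟨m, rfl⟩ hm
  exact hα (mem_iUnion.2 ⟨m, hm⟩)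

/-- **Kunen**: there is a family of `𝔠` many weak P-points, no two of them comparable in the
Rudin-Keisler order. -/
theorem exists_weakP_family (X : Type) (hX : #X ≤ continuum) : ∃ u : X → Ultrafilter ℕ,
    (∀ x, WeakP (u x)) ∧ ∀ x y, x ≠ y → ¬ RK (u x) (u y) := by
  obtain ⟨u, h1, h2, h3⟩ := exists_family X hX
  refine ⟨u, fun x => weakP_of_ok (h1 x) (h2 x), ?_⟩
  rintro x y hxy ⟨f, hf⟩
  exact h3 y x (Ne.symm hxy) f hf

theorem exists_weakP : ∃ u : Ultrafilter ℕ, WeakP u := by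
  obtain ⟨u, h, _⟩ := exists_weakP_family Unit (by
    rw [Cardinal.mk_unit]
    exact (Cardinal.one_lt_aleph0.trans Cardinal.aleph0_lt_continuum).le)
  exact ⟨u (), h ()⟩

theorem exists_weakP_pair : ∃ u v : Ultrafilter ℕ, WeakP u ∧ WeakP v ∧ ¬ RK u v ∧ ¬ RK v u := by
  obtain ⟨u, h, h'⟩ := exists_weakP_family Bool (by
    rw [Cardinal.mk_bool]
    exact (Cardinal.ofNat_lt_aleph0.trans Cardinal.aleph0_lt_continuum).le)
  exact ⟨u false, u true, h _, h _, h' _ _ (by simp), h' _ _ (by simp)⟩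

end Pool.Agent.R595.Kun
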