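import Mathlib

/-!
# Kunen's independent linked family on `ℕ`
-/

set_option autoImplicit false

namespace Pool.Agent.R595.Kun

open Filter Set

/-- the truncation of a set to the numbers below `k` -/
noncomputable def tr (x : Set ℕ) (k : ℕ) : Finset ℕ := by
  classical exact (Finset.range k).filter (· ∈ x)

theorem mem_tr {x : Set ℕ} {k n : ℕ} : n ∈ tr x k ↔ n < k ∧ n ∈ x := by
  classical
  simp [tr]

theorem tr_subset (x : Set ℕ) (k : ℕ) : tr x k ∈ (Finset.range k).powerset := by
  classical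
  rw [Finset.mem_powerset]
  intro n hn
  exact Finset.mem_range.2 (mem_tr.1 hn).1

/-- finitely many sets have different truncations from some point on -/
theorem exists_tr_inj (a : Finset (Set ℕ)) : ∃ k0, ∀ k ≥ k0, ∀ x ∈ a, ∀ y ∈ a,
    tr x k = tr y k → x = y := by
  classical
  have h : ∀ x y : Set ℕ, ∃ k0, ∀ k ≥ k0, tr x k = tr y k → x = y := by
    intro x y
    by_cases hxy : x = y
    · exact ⟨0, fun _ _ _ => hxy⟩
    · have : ∃ n, ¬ (n ∈ x ↔ n ∈ y) := by
        by_contra hcon
        push Not at hcon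
        exact hxy (Set.ext fun n => hcon n)
      obtain ⟨n, hn⟩ := this
      refine ⟨n + 1, fun k hk h => absurd ?_ hn⟩
      have h1 : n ∈ tr x k ↔ n ∈ tr y k := by rw [h]
      rw [mem_tr, mem_tr] at h1
      constructor
      · intro hx
        exact (h1.1 ⟨by omega, hx⟩).2
      · intro hy
        exact (h1.2 ⟨by omega, hy⟩).2
  choose K hK using h
  refine ⟨a.sup fun x => a.sup fun y => K x y, fun k hk x hx y hy hxy => hK x y k ?_ hxy⟩
  refine le_trans ?_ hk
  exact (Finset.le_sup (f := fun y => K x y) hy).trans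
    (Finset.le_sup (f := fun x => a.sup fun y => K x y) hx)

/-- the countable set carrying the family -/
abbrev Q : Type := {q : ℕ × Finset (Finset ℕ × Finset ℕ) //
  q.2 ⊆ (Finset.range q.1).powerset ×ˢ (Finset.range q.1).powerset}

/-- the members of the family -/
def A0 (i α : Set ℕ) (n : ℕ) : Set Q := by
  classical exact {q | (q.1.2.filter fun e => e.1 = tr i q.1.1).card ≤ n ∧
    (tr i q.1.1, tr α q.1.1) ∈ q.1.2}

theorem finite_lt (k0 : ℕ) : {q : Q | q.1.1 < k0}.Finite := by
  classical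
  have h : (Subtype.val '' {q : Q | q.1.1 < k0}).Finite := by
    refine ((Finset.range k0 ×ˢ
      ((Finset.range k0).powerset ×ˢ (Finset.range k0).powerset).powerset).finite_toSet).subset ?_
    rintro _ ⟨q, hq, rfl⟩
    simp only [mem_ofPred_eq] at hq
    simp only [Finset.coe_product, Set.mem_prod, Finset.mem_coe, Finset.mem_range,
      Finset.mem_powerset]
    refine ⟨hq, q.2.trans ?_⟩
    have : Finset.range q.1.1 ⊆ Finset.range k0 := Finset.range_subset_range.2 hq.le
    exact Finset.product_subset_product (Finset.powerset_mono.2 this)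
      (Finset.powerset_mono.2 this)
  exact Set.Finite.of_finite_image h Subtype.val_injective.injOn

theorem A0_mono (i α : Set ℕ) {n m : ℕ} (h : n ≤ m) : A0 i α n ⊆ A0 i α m := by
  rintro q ⟨h1, h2⟩
  exact ⟨h1.trans h, h2⟩

theorem A0_linked (i : Set ℕ) (n : ℕ) (a : Finset (Set ℕ)) (ha : n < a.card) :
    (⋂ α ∈ a, A0 i α n).Finite := by
  classical
  obtain ⟨k0, hk0⟩ := exists_tr_inj a
  refine (finite_lt k0).subset ?_
  intro q hq
  by_contra hcon
  simp only [mem_ofPred_eq, not_lt] at hcon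
  have hne : a.Nonempty := by
    rw [← Finset.card_pos]
    omega
  obtain ⟨α0, hα0⟩ := hne
  simp only [mem_iInter] at hq
  have h1 : (q.1.2.filter fun e => e.1 = tr i q.1.1).card ≤ n := by
    have := (hq α0 hα0).1
    convert this
  have h2 : a.image (fun α => (tr i q.1.1, tr α q.1.1)) ⊆
      q.1.2.filter fun e => e.1 = tr i q.1.1 := by
    intro e he
    obtain ⟨α, hα, rfl⟩ := Finset.mem_image.1 he
    rw [Finset.mem_filter]
    exact ⟨(hq α hα).2, rfl⟩
  have h3 : (a.image (fun α => (tr i q.1.1, tr α q.1.1))).card = a.card := by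
    apply Finset.card_image_of_injOn
    intro x hx y hy hxy
    simp only [Prod.mk.injEq, true_and] at hxy
    exact hk0 _ hcon x hx y hy hxy
  have h4 := Finset.card_le_card h2
  omega

theorem A0_indep (s : Finset (Set ℕ)) (σ : Set ℕ → Finset (Set ℕ)) (k : ℕ) :
    ∃ q : Q, k ≤ q.1.1 ∧ ∀ i ∈ s, ∀ α ∈ σ i, q ∈ A0 i α (σ i).card := by
  classical
  obtain ⟨k0, hk0⟩ := exists_tr_inj s
  let K := max k k0
  let R : Finset (Finset ℕ × Finset ℕ) := s.biUnion fun i => (σ i).image fun α => (tr i K, tr α K)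
  have hR : R ⊆ (Finset.range K).powerset ×ˢ (Finset.range K).powerset := by
    intro e he
    simp only [R, Finset.mem_biUnion, Finset.mem_image] at he
    obtain ⟨i, _, α, _, rfl⟩ := he
    exact Finset.mem_product.2 ⟨tr_subset i K, tr_subset α K⟩
  refine ⟨⟨(K, R), hR⟩, le_max_left _ _, fun i hi α hα => ⟨?_, ?_⟩⟩
  · have h1 : R.filter (fun e => e.1 = tr i K) ⊆ (σ i).image fun α => (tr i K, tr α K) := by
      intro e he
      rw [Finset.mem_filter] at he
      obtain ⟨he1, he2⟩ := he
      simp only [R, Finset.mem_biUnion, Finset.mem_image] at he1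
      obtain ⟨j, hj, β, hβ, rfl⟩ := he1
      have h2 : j = i := hk0 K (le_max_right _ _) j hj i hi he2
      subst h2
      exact Finset.mem_image.2 ⟨β, hβ, rfl⟩
    have h2 := (Finset.card_le_card h1).trans Finset.card_image_le
    convert h2
  · simp only [R, Finset.mem_biUnion, Finset.mem_image]
    exact ⟨i, hi, α, hα, rfl⟩

instance : Countable Q := inferInstance

instance : Infinite Q := by
  classical
  refine Infinite.of_injective (fun k : ℕ => (⟨(k, ∅), by simp⟩ : Q)) ?_
  intro k k' h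
  have := congrArg (fun q : Q => q.1.1) h
  simpa using this

/-- **Kunen's independent linked family**, on `ℕ`. -/
theorem exists_linked : ∃ A : Set ℕ → Set ℕ → ℕ → Set ℕ,
    (∀ i α n m, n ≤ m → A i α n ⊆ A i α m) ∧
    (∀ i n (a : Finset (Set ℕ)), n < a.card → (⋂ α ∈ a, A i α n).Finite) ∧
    (∀ (s : Finset (Set ℕ)) (σ : Set ℕ → Finset (Set ℕ)),
      (⋂ i ∈ s, ⋂ α ∈ σ i, A i α (σ i).card).Infinite) := by
  classical
  obtain ⟨e⟩ : Nonempty (ℕ ≃ Q) := nonempty_equiv_of_countable
  refine ⟨fun i α n => e ⁻¹' A0 i α n, fun i α n m h => preimage_mono (A0_mono i α h), ?_, ?_⟩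
  · intro i n a ha
    have h1 : (⋂ α ∈ a, e ⁻¹' A0 i α n) = e ⁻¹' (⋂ α ∈ a, A0 i α n) := by
      simp only [preimage_iInter]
    rw [h1]
    exact (A0_linked i n a ha).preimage e.injective.injOn
  · intro s σ
    have h1 : (⋂ i ∈ s, ⋂ α ∈ σ i, e ⁻¹' A0 i α (σ i).card) =
        e ⁻¹' (⋂ i ∈ s, ⋂ α ∈ σ i, A0 i α (σ i).card) := by
      simp only [preimage_iInter]
    rw [h1]
    intro hfin
    have h2 : (⋂ i ∈ s, ⋂ α ∈ σ i, A0 i α (σ i).card).Finite := by
      have := hfin.image e
      rwa [Set.image_preimage_eq _ e.surjective] at this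
    have h3 : (((fun q : Q => q.1.1) '' (⋂ i ∈ s, ⋂ α ∈ σ i, A0 i α (σ i).card))).Finite :=
      h2.image _
    obtain ⟨k, hk⟩ := h3.bddAbove
    obtain ⟨q, hq1, hq2⟩ := A0_indep s σ (k + 1)
    have h4 : q.1.1 ∈ ((fun q : Q => q.1.1) '' (⋂ i ∈ s, ⋂ α ∈ σ i, A0 i α (σ i).card)) := by
      refine ⟨q, ?_, rfl⟩
      simp only [mem_iInter]
      exact hq2
    have h5 := hk h4
    omega

end Pool.Agent.R595.Kun
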