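import Pool.Agent.R595.WP

/-!
# The Rudin-Frolik order and its ranks
-/

set_option autoImplicit false

namespace Pool.Agent.R595.RF

open Filter Set Pool.Agent.R595.WP

/-- `x` is a separated sequence, almost everywhere, and `w` is its `u`-limit. -/
def Rep (u w : Ultrafilter ℕ) (x : ℕ → Ultrafilter ℕ) (p : ℕ → ℕ) : Prop :=
  w = u.bind x ∧ {i | p ⁻¹' {i} ∈ x i} ∈ u

/-- Rudin-Frolik order. -/
def RF (u w : Ultrafilter ℕ) : Prop :=
  ∃ f : ℕ → Ultrafilter ℕ, Function.Injective f ∧ DiscreteTopology (range f) ∧ w = u.bind f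

theorem exists_proj {f : ℕ → Ultrafilter ℕ} (h1 : Function.Injective f)
    (h2 : DiscreteTopology (range f)) : ∃ p : ℕ → ℕ, ∀ i, p ⁻¹' {i} ∈ f i := by
  classical
  have hA : ∀ i, ∃ A : Set ℕ, A ∈ f i ∧ ∀ j, A ∈ f j → j = i := by
    intro i
    have hopen : IsOpen ({⟨f i, mem_range_self i⟩} : Set (range f)) := isOpen_discrete _
    obtain ⟨U, hU, hU'⟩ := isOpen_induced_iff.1 hopen
    have hfi : f i ∈ U := by
      have : (⟨f i, mem_range_self i⟩ : range f) ∈ Subtype.val ⁻¹' U := by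
        rw [hU']
        rfl
      exact this
    obtain ⟨V, ⟨A, rfl⟩, hV1, hV2⟩ := ultrafilterBasis_is_basis.exists_subset_of_mem_open hfi hU
    refine ⟨A, hV1, fun j hj => ?_⟩
    have h3 : f j ∈ U := hV2 hj
    have h4 : (⟨f j, mem_range_self j⟩ : range f) ∈ Subtype.val ⁻¹' U := h3
    rw [hU'] at h4
    exact h1 (congrArg Subtype.val h4)
  choose A hA1 hA2 using hA
  refine ⟨fun n => if h : ∃ i, n ∈ A i then Nat.find h else 0, fun i => ?_⟩
  have hfin : {j | j < i}.Finite := Set.finite_lt_nat i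
  have h3 : (⋂ j ∈ {j | j < i}, (A j)ᶜ) ∈ f i := (Filter.biInter_mem hfin).2 fun j hj =>
    compl_mem.2 fun h => (Nat.ne_of_gt hj) (hA2 j i h)
  refine Filter.mem_of_superset (Filter.inter_mem (hA1 i) h3) ?_
  rintro n ⟨hn1, hn2⟩
  have hex : ∃ i, n ∈ A i := ⟨i, hn1⟩
  simp only [mem_preimage, mem_singleton_iff, dif_pos hex]
  rw [Nat.find_eq_iff]
  refine ⟨hn1, fun j hj hnj => ?_⟩
  simp only [mem_iInter] at hn2
  exact hn2 j hj hnj

theorem inj_of_proj {f : ℕ → Ultrafilter ℕ} {p : ℕ → ℕ} (hp : ∀ i, p ⁻¹' {i} ∈ f i) :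
    Function.Injective f := by
  intro i j hij
  have h1 := hp i
  rw [hij] at h1
  obtain ⟨n, hn1, hn2⟩ := Ultrafilter.nonempty_of_mem (Filter.inter_mem h1 (hp j))
  exact (hn1 : p n = i).symm.trans hn2

theorem disc_of_proj {f : ℕ → Ultrafilter ℕ} {p : ℕ → ℕ} (hp : ∀ i, p ⁻¹' {i} ∈ f i) :
    DiscreteTopology (range f) := by
  rw [discreteTopology_iff_isOpen_singleton]
  rintro ⟨_, i, rfl⟩
  refine isOpen_induced_iff.2 ⟨{v | p ⁻¹' {i} ∈ v}, ultrafilter_isOpen_basic _, ?_⟩
  ext ⟨_, j, rfl⟩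
  simp only [mem_preimage, mem_ofPred_eq, mem_singleton_iff]
  constructor
  · intro h
    obtain ⟨n, hn1, hn2⟩ := Ultrafilter.nonempty_of_mem (Filter.inter_mem h (hp j))
    have hij : i = j := (hn1 : p n = i).symm.trans (hn2 : p n = j)
    subst hij
    rfl
  · intro h
    have h' : f j = f i := congrArg Subtype.val h
    rw [h']
    exact hp i

theorem rf_iff {u w : Ultrafilter ℕ} : RF u w ↔ ∃ f : ℕ → Ultrafilter ℕ, ∃ p : ℕ → ℕ,
    (∀ i, p ⁻¹' {i} ∈ f i) ∧ w = u.bind f := by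
  constructor
  · rintro ⟨f, h1, h2, h3⟩
    obtain ⟨p, hp⟩ := exists_proj h1 h2
    exact ⟨f, p, hp, h3⟩
  · rintro ⟨f, p, hp, h3⟩
    exact ⟨f, inj_of_proj hp, disc_of_proj hp, h3⟩

theorem bind_congr {u : Ultrafilter ℕ} {x y : ℕ → Ultrafilter ℕ} (h : {i | x i = y i} ∈ u) :
    u.bind x = u.bind y := by
  apply eq_of_le
  intro S hS
  rw [WP.mem_bind] at hS ⊢
  filter_upwards [h, hS] with i hi hi'
  rwa [← (hi : x i = y i)]

theorem bind_assoc (u : Ultrafilter ℕ) (x y : ℕ → Ultrafilter ℕ) :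
    (u.bind x).bind y = u.bind (fun i => (x i).bind y) := by
  apply eq_of_le
  intro S hS
  exact hS

theorem bind_pure (u : Ultrafilter ℕ) (g : ℕ → ℕ) :
    u.bind (fun i => pure (g i)) = u.map g := by
  apply eq_of_le
  intro S hS
  exact hS

/-- an infinite set contains the range of an injection which is the identity on a set in `u` -/
theorem exists_retract {u : Ultrafilter ℕ} (hu : NP u) {I : Set ℕ} (hI : I ∈ u) :
    ∃ τ : ℕ → ℕ, Function.Injective τ ∧ (∀ i, τ i ∈ I) ∧ {i | τ i = i} ∈ u := by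
  classical
  have hInf : I.Infinite := by
    intro hfin
    have := (Ultrafilter.finite_biUnion_mem_iff (f := u) hfin (s := fun n => ({n} : Set ℕ))).mp (by
      simpa using hI)
    obtain ⟨n, _, hn⟩ := this
    exact hu n hn
  -- split `I` in two infinite pieces
  obtain ⟨e⟩ : Nonempty (ℕ ≃ I) := by
    have : Infinite I := hInf.to_subtype
    exact ⟨(Nat.Subtype.orderIsoOfNat I).toEquiv⟩
  have key : ∀ I1 : Set ℕ, I1 ⊆ I → I1 ∈ u → (I \ I1).Infinite →
      ∃ τ : ℕ → ℕ, Function.Injective τ ∧ (∀ i, τ i ∈ I) ∧ {i | τ i = i} ∈ u := by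
    intro I1 h1 h2 h3
    have : Infinite (I \ I1 : Set ℕ) := h3.to_subtype
    let d : ℕ ≃ (I \ I1 : Set ℕ) := (Nat.Subtype.orderIsoOfNat _).toEquiv
    refine ⟨fun i => if i ∈ I1 then i else d i, ?_, ?_, ?_⟩
    · intro i j hij
      by_cases hi : i ∈ I1 <;> by_cases hj : j ∈ I1
      · simpa [hi, hj] using hij
      · simp only [hi, hj, if_true, if_false] at hij
        exact absurd (hij ▸ hi) (d j).2.2
      · simp only [hi, hj, if_true, if_false] at hij
        exact absurd (hij ▸ hj) (d i).2.2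
      · simp only [hi, hj, if_false] at hij
        exact d.injective (Subtype.ext hij)
    · intro i
      by_cases hi : i ∈ I1
      · simpa [hi] using h1 hi
      · simpa [hi] using (d i).2.1
    · filter_upwards [h2] with i hi
      simp [show i ∈ I1 from hi]
  let E : Set ℕ := {n | ∃ k, n = e (2 * k)}
  by_cases hE : E ∈ u
  · refine key E ?_ hE ?_
    · rintro n ⟨k, rfl⟩
      exact (e (2 * k)).2
    · refine Set.infinite_of_injective_forall_mem (f := fun k => (e (2 * k + 1) : ℕ)) ?_ ?_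
      · intro a b hab
        have := e.injective (Subtype.ext hab)
        omega
      · intro k
        refine ⟨(e (2 * k + 1)).2, ?_⟩
        rintro ⟨l, hl⟩
        have := e.injective (Subtype.ext hl)
        omega
  · refine key (I ∩ Eᶜ) inter_subset_left (Filter.inter_mem hI (compl_mem.2 hE)) ?_
    refine Set.infinite_of_injective_forall_mem (f := fun k => (e (2 * k) : ℕ)) ?_ ?_
    · intro a b hab
      have := e.injective (Subtype.ext hab)
      omega
    · intro k
      refine ⟨(e (2 * k)).2, fun h => h.2 ⟨k, rfl⟩⟩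

theorem exists_pure_of_not_np {u : Ultrafilter ℕ} (h : ¬ NP u) : ∃ n, u = pure n := by
  unfold NP at h
  push Not at h
  obtain ⟨n, hn⟩ := h
  refine ⟨n, (eq_of_le fun S hS => ?_).symm⟩
  exact Filter.mem_of_superset hn (by
    rintro m rfl
    exact hS)

/-- every ultrafilter contains a set with infinite complement -/
theorem exists_small (v : Ultrafilter ℕ) : ∃ A ∈ v, (Aᶜ).Infinite := by
  by_cases h : {n : ℕ | Even n} ∈ v
  · refine ⟨_, h, ?_⟩
    refine Set.infinite_of_injective_forall_mem (f := fun k => 2 * k + 1) ?_ ?_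
    · intro a b hab
      simp only at hab
      omega
    · intro k
      simp
  · refine ⟨_, compl_mem.2 h, ?_⟩
    rw [compl_compl]
    refine Set.infinite_of_injective_forall_mem (f := fun k => 2 * k) ?_ ?_
    · intro a b hab
      simp only at hab
      omega
    · intro k
      simp

theorem pure_bind' (n : ℕ) (x : ℕ → Ultrafilter ℕ) : (pure n : Ultrafilter ℕ).bind x = x n := by
  apply eq_of_le
  intro S hS
  exact hS

theorem rf_pure (n : ℕ) (v : Ultrafilter ℕ) : RF (pure n) v := by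
  classical
  obtain ⟨A, hA, hinf⟩ := exists_small v
  have : Infinite (Aᶜ : Set ℕ) := hinf.to_subtype
  let d : ℕ ≃ (Aᶜ : Set ℕ) := (Nat.Subtype.orderIsoOfNat _).toEquiv
  rw [rf_iff]
  refine ⟨fun i => if i = n then v else pure (d i : ℕ),
    fun k => if h : k ∈ Aᶜ then d.symm ⟨k, h⟩ else n, ?_, ?_⟩
  · intro i
    by_cases hi : i = n
    · subst hi
      simp only [if_true]
      refine Filter.mem_of_superset hA ?_
      intro k hk
      have : k ∉ Aᶜ := fun h => h hk
      simp only [mem_preimage, mem_singleton_iff, dif_neg this]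
    · simp only [hi, if_false]
      refine Ultrafilter.mem_pure.2 ?_
      simp only [mem_preimage, mem_singleton_iff, dif_pos (d i).2]
      simp
  · rw [pure_bind']
    simp

/-- relativised representations give the order -/
theorem rf_of_rep {u w : Ultrafilter ℕ} {x : ℕ → Ultrafilter ℕ} {p : ℕ → ℕ}
    (h : Rep u w x p) : RF u w := by
  classical
  by_cases hu : NP u
  · obtain ⟨τ, hτ1, hτ2, hτ3⟩ := exists_retract hu h.2
    rw [rf_iff]
    refine ⟨fun i => x (τ i), fun n => if h : ∃ i, τ i = p n then h.choose else 0, ?_, ?_⟩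
    · intro i
      refine Filter.mem_of_superset (hτ2 i) ?_
      intro n hn
      have hn' : p n = τ i := hn
      have hex : ∃ j, τ j = p n := ⟨i, hn'.symm⟩
      simp only [mem_preimage, mem_singleton_iff, dif_pos hex]
      exact hτ1 (hex.choose_spec.trans hn')
    · rw [h.1]
      apply bind_congr
      filter_upwards [hτ3] with i hi
      have hi' : τ i = i := hi
      change x i = x (τ i)
      rw [hi']
  · obtain ⟨n, rfl⟩ := exists_pure_of_not_np hu
    exact rf_pure n w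

theorem rf_refl (u : Ultrafilter ℕ) : RF u u := by
  refine rf_of_rep (x := fun i => pure i) (p := id) ⟨?_, ?_⟩
  · rw [bind_pure, Ultrafilter.map_id']
  · refine Filter.mem_of_superset Filter.univ_mem fun i _ => ?_
    simp

theorem rf_trans {a b c : Ultrafilter ℕ} (h1 : RF a b) (h2 : RF b c) : RF a c := by
  rw [rf_iff] at h1 h2
  obtain ⟨f, p, hp, rfl⟩ := h1
  obtain ⟨g, q, hq, rfl⟩ := h2
  rw [rf_iff]
  refine ⟨fun i => (f i).bind g, fun n => p (q n), fun i => ?_, bind_assoc _ _ _⟩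
  rw [WP.mem_bind]
  refine Filter.mem_of_superset (hp i) fun j hj => ?_
  refine Filter.mem_of_superset (hq j) fun n hn => ?_
  have h3 : q n = j := hn
  have h4 : p j = i := hj
  simp only [mem_preimage, mem_singleton_iff, h3, h4]

theorem dichotomy {a b w : Ultrafilter ℕ} {x y : ℕ → Ultrafilter ℕ} {p q : ℕ → ℕ}
    (hx : Rep a w x p) (hy : Rep b w y q) :
    {n | x n ∈ closure {v | ∃ m ∈ {m | q ⁻¹' {m} ∈ y m}, v = y m}} ∈ a ∨
    {m | y m ∈ closure {v | ∃ n ∈ {n | p ⁻¹' {n} ∈ x n}, v = x n}} ∈ b := by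
  set A0 : Set ℕ := {n | p ⁻¹' {n} ∈ x n} with hA0
  set B0 : Set ℕ := {m | q ⁻¹' {m} ∈ y m} with hB0
  by_contra hcon
  push Not at hcon
  obtain ⟨h1, h2⟩ := hcon
  set I : Set ℕ := A0 ∩ {n | x n ∈ closure {v | ∃ m ∈ B0, v = y m}}ᶜ
  set J : Set ℕ := B0 ∩ {m | y m ∈ closure {v | ∃ n ∈ A0, v = x n}}ᶜ
  have hI : I ∈ a := Filter.inter_mem hx.2 (compl_mem.2 h1)
  have hJ : J ∈ b := Filter.inter_mem hy.2 (compl_mem.2 h2)
  obtain ⟨P, Q, hPQ, hP, hQ⟩ := sep (x := x) (y := y) (I := I) (J := J)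
    (fun i hi h => hi.2 (closure_mono (by
      rintro v ⟨j, hj, rfl⟩
      exact ⟨j, hj.1, rfl⟩) h))
    (fun j hj h => hj.2 (closure_mono (by
      rintro v ⟨i, hi, rfl⟩
      exact ⟨i, hi.1, rfl⟩) h))
  have hPw : P ∈ w := by
    rw [hx.1, WP.mem_bind]
    exact Filter.mem_of_superset hI hP
  have hQw : Q ∈ w := by
    rw [hy.1, WP.mem_bind]
    exact Filter.mem_of_superset hJ hQ
  obtain ⟨z, hz1, hz2⟩ := Ultrafilter.nonempty_of_mem (Filter.inter_mem hPw hQw)
  exact Set.disjoint_left.1 hPQ hz1 hz2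

/-- a limit point of a separated sequence is an ultrafilter limit of the sequence, along its
projection. -/
theorem lim_of_closure {x : ℕ → Ultrafilter ℕ} {p : ℕ → ℕ} {v : Ultrafilter ℕ}
    (hv : v ∈ closure {v | ∃ n ∈ {n | p ⁻¹' {n} ∈ x n}, v = x n}) : v = (v.map p).bind x := by
  apply eq_of_le
  intro S hS
  rw [WP.mem_bind]
  by_contra hcon
  have h1 : {m | S ∈ x m}ᶜ ∈ v.map p := compl_mem.2 hcon
  have h2 : S ∩ p ⁻¹' {m | S ∈ x m}ᶜ ∈ v := Filter.inter_mem hS h1
  obtain ⟨w, ⟨m, hm, rfl⟩, hw⟩ := WP.mem_closure.1 hv _ h2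
  obtain ⟨z, hz1, hz2⟩ := Ultrafilter.nonempty_of_mem (Filter.inter_mem hw hm)
  have h3 : p z = m := hz2
  have h4 : p z ∈ {m | S ∈ x m}ᶜ := hz1.2
  rw [h3] at h4
  exact h4 (Filter.mem_of_superset hw inter_subset_left)

theorem proj_mem_of_closure {x : ℕ → Ultrafilter ℕ} {p : ℕ → ℕ} {v : Ultrafilter ℕ}
    (hv : v ∈ closure {v | ∃ n ∈ {n | p ⁻¹' {n} ∈ x n}, v = x n}) :
    {n | p ⁻¹' {n} ∈ x n} ∈ v.map p := by
  by_contra hcon
  have h1 : p ⁻¹' {n | p ⁻¹' {n} ∈ x n}ᶜ ∈ v := compl_mem.2 hcon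
  obtain ⟨w, ⟨m, hm, rfl⟩, hw⟩ := WP.mem_closure.1 hv _ h1
  obtain ⟨z, hz1, hz2⟩ := Ultrafilter.nonempty_of_mem (Filter.inter_mem hw hm)
  have h3 : p z = m := hz2
  have h4 : p z ∈ {n | p ⁻¹' {n} ∈ x n}ᶜ := hz1
  rw [h3] at h4
  exact h4 hm

/-- one side of the comparison of two representations -/
theorem compare_side {a b w : Ultrafilter ℕ} {x y : ℕ → Ultrafilter ℕ} {p q : ℕ → ℕ}
    (hx : Rep a w x p) (hy : Rep b w y q)
    (h : {m | y m ∈ closure {v | ∃ n ∈ {n | p ⁻¹' {n} ∈ x n}, v = x n}} ∈ b) :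
    ∃ h : ℕ → Ultrafilter ℕ, ∃ q' : ℕ → ℕ, Rep b a h q' ∧ {m | y m = (h m).bind x} ∈ b := by
  classical
  refine ⟨fun m => (y m).map p, fun n => if h : ∃ m, q ⁻¹' {m} ∈ x n then h.choose else 0,
    ⟨?_, ?_⟩, ?_⟩
  · have h1 : w.map p = a := map_of_rep hx.1 hx.2
    rw [← h1, hy.1]
    apply eq_of_le
    intro S hS
    exact hS
  · filter_upwards [h, hy.2] with m hm hm2
    have h3 := lim_of_closure hm
    have h4 : q ⁻¹' {m} ∈ ((y m).map p).bind x := by
      rw [← h3]
      exact hm2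
    rw [WP.mem_bind] at h4
    refine Filter.mem_of_superset h4 ?_
    intro n hn
    have hn' : q ⁻¹' {m} ∈ x n := hn
    have hex : ∃ m, q ⁻¹' {m} ∈ x n := ⟨m, hn'⟩
    simp only [mem_preimage, mem_singleton_iff, dif_pos hex]
    obtain ⟨z, hz1, hz2⟩ := Ultrafilter.nonempty_of_mem (Filter.inter_mem hn' hex.choose_spec)
    exact (hz2 : q z = _).symm.trans hz1
  · filter_upwards [h] with m hm
    exact lim_of_closure hm

/-- **Comparison of two representations** (the predecessors in the Rudin-Frolik order form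
a chain). -/
theorem compare {a b w : Ultrafilter ℕ} {x y : ℕ → Ultrafilter ℕ} {p q : ℕ → ℕ}
    (hx : Rep a w x p) (hy : Rep b w y q) :
    (∃ h : ℕ → Ultrafilter ℕ, ∃ q' : ℕ → ℕ, Rep b a h q' ∧ {m | y m = (h m).bind x} ∈ b) ∨
    (∃ h : ℕ → Ultrafilter ℕ, ∃ p' : ℕ → ℕ, Rep a b h p' ∧ {n | x n = (h n).bind y} ∈ a) := by
  rcases dichotomy hx hy with h | h
  · exact Or.inr (compare_side hy hx h)
  · exact Or.inl (compare_side hx hy h)

/-- strict order -/
def Lt (u w : Ultrafilter ℕ) : Prop := RF u w ∧ ¬ RF w u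

theorem rk_of_rf {u w : Ultrafilter ℕ} (h : RF u w) : RK u w := by
  rw [rf_iff] at h
  obtain ⟨f, p, hp, h⟩ := h
  exact ⟨p, map_of_rep h (Filter.mem_of_superset Filter.univ_mem fun i _ => hp i)⟩

/-- a representation by nonprincipal points is strict -/
theorem lt_of_np {u w : Ultrafilter ℕ} {x : ℕ → Ultrafilter ℕ} {p : ℕ → ℕ}
    (h : Rep u w x p) (hnp : {i | NP (x i)} ∈ u) : Lt u w := by
  refine ⟨rf_of_rep h, fun hcon => ?_⟩
  obtain ⟨g, hg⟩ := rk_of_rf hcon
  -- `g` maps `u` to `w`, `p` maps `w` to `u`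
  have h1 : w.map p = u := map_of_rep h.1 h.2
  have h2 : w.map (g ∘ p) = w := by
    rw [← Ultrafilter.map_map, h1, hg]
  have h3 : {n | (g ∘ p) n = n} ∈ w := Fix.eventually_eq_of_map_eq h2
  have h4 : {i | {n | (g ∘ p) n = n} ∈ x i} ∈ u := by
    have := h3
    rw [h.1, WP.mem_bind] at this
    exact this
  obtain ⟨i, ⟨hi1, hi2⟩, hi3⟩ := Ultrafilter.nonempty_of_mem
    (Filter.inter_mem (Filter.inter_mem h4 h.2) hnp)
  refine hi3 (g i) (Filter.mem_of_superset (Filter.inter_mem hi1 hi2) ?_)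
  rintro n ⟨hn1, hn2⟩
  have h5 : g (p n) = n := hn1
  have h6 : p n = i := hn2
  rw [h6] at h5
  exact h5.symm

/-- a representation by principal points is an isomorphism -/
theorem rf_of_principal {u w : Ultrafilter ℕ} {x : ℕ → Ultrafilter ℕ} {p : ℕ → ℕ}
    (h : Rep u w x p) (hnp : {i | ¬ NP (x i)} ∈ u) : RF w u := by
  classical
  have hg : ∀ i, ∃ n, ¬ NP (x i) → x i = pure n := by
    intro i
    by_cases hi : NP (x i)
    · exact ⟨0, fun h => absurd hi h⟩
    · obtain ⟨n, hn⟩ := exists_pure_of_not_np hi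
      exact ⟨n, fun _ => hn⟩
  choose g hg using hg
  have h1 : w.map p = u := map_of_rep h.1 h.2
  have h2 : w = u.map g := by
    rw [h.1, ← bind_pure]
    apply bind_congr
    filter_upwards [hnp] with i hi
    exact hg i hi
  refine rf_of_rep (x := fun n => pure (p n)) (p := g) ⟨?_, ?_⟩
  · rw [bind_pure, h1]
  · have h3 : g ⁻¹' {n | g ⁻¹' {n} ∈ (pure (p n) : Ultrafilter ℕ)} ∈ u := by
      filter_upwards [h.2, hnp] with i hi1 hi2
      rw [hg i hi2] at hi1
      have h4 : p (g i) = i := hi1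
      change g ⁻¹' {g i} ∈ (pure (p (g i)) : Ultrafilter ℕ)
      rw [h4]
      refine Ultrafilter.mem_pure.2 rfl
    rw [h2]
    exact h3

theorem np_of_lt {u w : Ultrafilter ℕ} {x : ℕ → Ultrafilter ℕ} {p : ℕ → ℕ}
    (h : Rep u w x p) (hlt : ¬ RF w u) : {i | NP (x i)} ∈ u := by
  by_contra hcon
  exact hlt (rf_of_principal h (compl_mem.2 hcon))

/-- rank less than `n` -/
def L : ℕ → Ultrafilter ℕ → Prop
  | 0, _ => False
  | n + 1, u => ∀ v, Lt v u → L n v

theorem L_mono_left {n : ℕ} {u : Ultrafilter ℕ} (h : L n u) : L (n + 1) u := by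
  induction n generalizing u with
  | zero => exact h.elim
  | succ n ih => exact fun v hv => ih (h v hv)

theorem L_mono {m n : ℕ} (hmn : m ≤ n) {u : Ultrafilter ℕ} (h : L m u) : L n u := by
  induction hmn with
  | refl => exact h
  | step _ ih => exact L_mono_left ih

theorem L_of_rf {n : ℕ} {u v : Ultrafilter ℕ} (h : L n u) (hvu : RF v u) : L n v := by
  cases n with
  | zero => exact h
  | succ n => exact fun w hw => h w ⟨rf_trans hw.1 hvu, fun hcon => hw.2 (rf_trans hvu hcon)⟩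

theorem not_np_of_L {u : Ultrafilter ℕ} (h : L 1 u) : ¬ NP u := by
  intro hnp
  refine h (pure 0) ⟨rf_pure 0 u, fun hcon => ?_⟩
  obtain ⟨g, hg⟩ := rk_of_rf hcon
  refine hnp (g 0) ?_
  rw [← hg]
  exact Ultrafilter.mem_map.2 (by simp)

theorem L_pure (n : ℕ) : L 1 (pure n) := fun v hv => (hv.2 (rf_pure n v)).elim

/-- **Upper bound.** -/
theorem upper (m : ℕ) : ∀ {u w : Ultrafilter ℕ} {x : ℕ → Ultrafilter ℕ} {p : ℕ → ℕ} {k : ℕ},
    Rep u w x p → {i | L (m + 1) (x i)} ∈ u → L (k + 1) u → L (k + m + 1) w := by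
  induction m with
  | zero =>
    intro u w x p k h hx hu
    have h1 : RF w u := rf_of_principal h (Filter.mem_of_superset hx fun i hi => not_np_of_L hi)
    exact L_of_rf hu h1
  | succ m ih =>
    intro u w x p k h hx hu v hv
    obtain ⟨y, q, hq, hvy⟩ := rf_iff.1 hv.1
    have hy : Rep v w y q := ⟨hvy, Filter.mem_of_superset Filter.univ_mem fun i _ => hq i⟩
    rcases compare h hy with ⟨z, q', hz, -⟩ | ⟨z, p', hz, hz'⟩
    · exact L_mono (by omega) (L_of_rf hu (rf_of_rep hz))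
    · have hynp : {j | NP (y j)} ∈ v := np_of_lt hy hv.2
      have h2 : {i | {j | NP (y j)} ∈ z i} ∈ u := by
        have := hynp
        rw [hz.1, WP.mem_bind] at this
        exact this
      have h3 : {i | L (m + 1) (z i)} ∈ u := by
        filter_upwards [hx, hz', h2] with i hi1 hi2 hi3
        refine hi1 (z i) (lt_of_np (x := y) (p := q) ⟨hi2, ?_⟩ hi3)
        exact Filter.mem_of_superset Filter.univ_mem fun j _ => hq j
      exact ih hz h3 hu

theorem map_pair_iso (v : Ultrafilter ℕ) (i : ℕ) : RF v (v.map (Nat.pair i)) := by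
  refine rf_of_rep (x := fun j => pure (Nat.pair i j)) (p := fun n => (Nat.unpair n).2) ⟨?_, ?_⟩
  · rw [bind_pure]
  · refine Filter.mem_of_superset Filter.univ_mem fun j _ => ?_
    change (Nat.unpair (Nat.pair i j)).2 = j
    rw [Nat.unpair_pair]

/-- pasting of representations -/
theorem paste {u w : Ultrafilter ℕ} {x : ℕ → Ultrafilter ℕ} {p : ℕ → ℕ} (h : Rep u w x p)
    {v : ℕ → Ultrafilter ℕ} (hv : {i | Lt (v i) (x i)} ∈ u) :
    ∃ v' : Ultrafilter ℕ, Lt v' w ∧
      Rep u v' (fun i => (v i).map (Nat.pair i)) (fun n => (Nat.unpair n).1) := by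
  classical
  have hg : ∀ i, ∃ g : ℕ → Ultrafilter ℕ, ∃ q : ℕ → ℕ, Lt (v i) (x i) →
      ((∀ j, q ⁻¹' {j} ∈ g j) ∧ x i = (v i).bind g) := by
    intro i
    by_cases hi : Lt (v i) (x i)
    · obtain ⟨g, q, h1, h2⟩ := rf_iff.1 hi.1
      exact ⟨g, q, fun _ => ⟨h1, h2⟩⟩
    · exact ⟨fun _ => pure 0, id, fun h => absurd h hi⟩
  choose g q hg using hg
  let v' : Ultrafilter ℕ := u.bind fun i => (v i).map (Nat.pair i)
  refine ⟨v', ?_, rfl, ?_⟩
  · refine lt_of_np (x := fun n => g (Nat.unpair n).1 (Nat.unpair n).2)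
      (p := fun n => Nat.pair (p n) (q (p n) n)) ⟨?_, ?_⟩ ?_
    · apply eq_of_le
      intro S hS
      rw [h.1, WP.mem_bind] at hS
      change {i | {n | S ∈ g (Nat.unpair n).1 (Nat.unpair n).2} ∈ (v i).map (Nat.pair i)} ∈ u
      filter_upwards [hS, hv] with i hi1 hi2
      have h1 : S ∈ (v i).bind (g i) := by
        rw [← (hg i hi2).2]
        exact hi1
      rw [WP.mem_bind] at h1
      refine Ultrafilter.mem_map.2 ?_
      refine Filter.mem_of_superset h1 fun j hj => ?_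
      simpa using hj
    · change {i | {n | _} ∈ (v i).map (Nat.pair i)} ∈ u
      filter_upwards [h.2, hv] with i hi1 hi2
      have h1 : p ⁻¹' {i} ∈ (v i).bind (g i) := by
        rw [← (hg i hi2).2]
        exact hi1
      rw [WP.mem_bind] at h1
      refine Ultrafilter.mem_map.2 ?_
      refine Filter.mem_of_superset h1 fun j hj => ?_
      change (fun n => Nat.pair (p n) (q (p n) n)) ⁻¹' {Nat.pair i j} ∈
        g (Nat.unpair (Nat.pair i j)).1 (Nat.unpair (Nat.pair i j)).2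
      rw [Nat.unpair_pair]
      refine Filter.mem_of_superset (Filter.inter_mem hj ((hg i hi2).1 j)) ?_
      rintro n ⟨hn1, hn2⟩
      have h3 : p n = i := hn1
      have h4 : q i n = j := hn2
      simp only [mem_preimage, mem_singleton_iff, h3, h4]
    · change {i | {n | _} ∈ (v i).map (Nat.pair i)} ∈ u
      filter_upwards [hv] with i hi2
      have h1 : {j | NP (g i j)} ∈ v i := np_of_lt (x := g i) (p := q i)
        ⟨(hg i hi2).2, Filter.mem_of_superset Filter.univ_mem fun j _ => (hg i hi2).1 j⟩ hi2.2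
      refine Ultrafilter.mem_map.2 ?_
      refine Filter.mem_of_superset h1 fun j hj => ?_
      change NP (g (Nat.unpair (Nat.pair i j)).1 (Nat.unpair (Nat.pair i j)).2)
      rw [Nat.unpair_pair]
      exact hj
  · refine Filter.mem_of_superset Filter.univ_mem fun i _ => ?_
    change Nat.pair i ⁻¹' ((fun n => (Nat.unpair n).1) ⁻¹' {i}) ∈ v i
    refine Filter.mem_of_superset Filter.univ_mem fun j _ => ?_
    change (Nat.unpair (Nat.pair i j)).1 = i
    rw [Nat.unpair_pair]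

/-- **Lower bound.** -/
theorem lower (m : ℕ) : ∀ {u w : Ultrafilter ℕ} {x : ℕ → Ultrafilter ℕ} {p : ℕ → ℕ} {k : ℕ},
    Rep u w x p → {i | ¬ L m (x i)} ∈ u → ¬ L k u → ¬ L (k + m) w := by
  classical
  induction m with
  | zero =>
    intro u w x p k h _ hu hw
    exact hu (L_of_rf hw (rf_of_rep h))
  | succ m ih =>
    intro u w x p k h hx hu hw
    have hv : ∀ i, ∃ v, ¬ L (m + 1) (x i) → Lt v (x i) ∧ ¬ L m v := by
      intro i
      by_cases hi : L (m + 1) (x i)
      · exact ⟨pure 0, fun h => absurd hi h⟩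
      · have hi' := hi
        simp only [L] at hi
        push Not at hi
        obtain ⟨v, hv1, hv2⟩ := hi
        exact ⟨v, fun _ => ⟨hv1, hv2⟩⟩
    choose v hv using hv
    obtain ⟨v', hv1, hv2⟩ := paste h (v := v) (Filter.mem_of_superset hx fun i hi => (hv i hi).1)
    refine ih (k := k) hv2 ?_ hu (hw v' hv1)
    filter_upwards [hx] with i hi hcon
    exact (hv i hi).2 (L_of_rf hcon (map_pair_iso _ _))

end Pool.Agent.R595.RF
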