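import Pool.Agent.R595.Steps

/-!
# Kunen's theorem: weak P-points (`𝔠`-OK points), pairwise incomparable
-/

set_option autoImplicit false

namespace Pool.Agent.R595.Kun

open Filter Set Cardinal

variable {A : Set ℕ → Set ℕ → ℕ → Set ℕ}

theorem wf_choice {α β : Type} (r : α → α → Prop) (wf : WellFounded r)
    (Rel : (i : α) → ((j : α) → r j i → β) → β → Prop)
    (h : ∀ i f, ∃ b, Rel i f b) : ∃ pick : α → β, ∀ i, Rel i (fun j _ => pick j) (pick i) := by
  classical
  choose c hc using h
  refine ⟨wf.fix (fun i f => c i f), fun i => ?_⟩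
  have := hc i (fun j _ => wf.fix (fun i f => c i f) j)
  rw [wf.fix_eq]
  exact this

/-- the filter generated by `F` and a decreasing sequence -/
def addSeq (F : Filter ℕ) (C : ℕ → Set ℕ) (hC : Antitone C) : Filter ℕ where
  sets := {S | ∃ G ∈ F, ∃ n, G ∩ C n ⊆ S}
  univ_sets := ⟨univ, univ_mem, 0, subset_univ _⟩
  sets_of_superset := by
    rintro S T ⟨G, hG, a, ha⟩ hST
    exact ⟨G, hG, a, ha.trans hST⟩
  inter_sets := by
    rintro S T ⟨G, hG, a, ha⟩ ⟨G', hG', a', ha'⟩
    refine ⟨G ∩ G', inter_mem hG hG', max a a', ?_⟩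
    rintro z ⟨⟨hz1, hz2⟩, hz3⟩
    exact ⟨ha ⟨hz1, hC (le_max_left _ _) hz3⟩, ha' ⟨hz2, hC (le_max_right _ _) hz3⟩⟩

/-- The OK property for a sequence, or one of its members is thrown out. -/
theorem Good.ok_or (hA : Linked A) {F : Filter ℕ} {N : Set (Set ℕ)} (h : Good A F N)
    {C : ℕ → Set ℕ} (hC : Antitone C) {i : Set ℕ} (hi : i ∉ N) :
    ∃ (F' : Filter ℕ) (N' : Set (Set ℕ)), F' ≤ F ∧ N ⊆ N' ∧ (N' \ N).Countable ∧ Good A F' N' ∧
      ((∃ n, (C n)ᶜ ∈ F') ∨ OKFor F' C) := by
  classical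
  by_cases h1 : ∃ (n : ℕ) (F' : Filter ℕ) (N' : Set (Set ℕ)), F' ≤ F ∧ N ⊆ N' ∧
      (N' \ N).Countable ∧ Good A F' N' ∧ (C n)ᶜ ∈ F'
  · obtain ⟨n, F', N', h2, h3, h4, h5, h6⟩ := h1
    exact ⟨F', N', h2, h3, h4, h5, Or.inl ⟨n, h6⟩⟩
  · have hpos : ∀ n, ∀ G ∈ F, ∀ (s : Finset (Set ℕ)) (σ : Set ℕ → Finset (Set ℕ)),
        (∀ i ∈ s, i ∉ N) → (G ∩ C n ∩ XX A s σ).Nonempty := by
      intro n
      by_contra hcon
      push Not at hcon
      obtain ⟨G, hG, s0, σ0, hs0, hemp⟩ := hcon
      apply h1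
      refine ⟨n, F ⊓ 𝓟 (XX A s0 σ0), N ∪ (s0 : Set (Set ℕ)), inf_le_left, subset_union_left,
        ?_, ?_, ?_⟩
      · refine (s0.finite_toSet.countable).mono ?_
        rintro i ⟨hi | hi, hi'⟩
        · exact absurd hi hi'
        · exact hi
      · apply h.adjoin
        intro G' hG' s σ hs
        have h1 := h.pos G' hG' (s ∪ s0) (fun i => if i ∈ s0 then σ0 i else σ i) (by
          intro i hi
          rcases Finset.mem_union.1 hi with hi | hi
          · exact fun h' => hs i hi (Or.inl h')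
          · exact hs0 i hi)
        obtain ⟨z, hz1, hz2⟩ := h1
        have h2 := XX_union (A := A) (s := s) (s0 := s0) (σ := σ) (σ0 := σ0)
          (fun i hi h' => hs i hi (Or.inr h')) (z := z) (by convert hz2)
        exact ⟨z, ⟨hz1, h2.2⟩, h2.1⟩
      · rw [mem_inf_principal]
        refine Filter.mem_of_superset hG ?_
        intro z hz hz2 hz3
        have : z ∈ G ∩ C n ∩ XX A s0 σ0 := ⟨⟨hz, hz3⟩, hz2⟩
        rw [hemp] at this
        exact this
    have hle : addSeq F C hC ≤ F := fun G hG => ⟨G, hG, 0, inter_subset_left⟩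
    have hgood : Good A (addSeq F C hC) N := by
      refine ⟨hle.trans h.cof, ?_⟩
      rintro S ⟨G, hG, n, hS⟩ s σ hs
      obtain ⟨z, hz1, hz2⟩ := hpos n G hG s σ hs
      exact ⟨z, hS hz1, hz2⟩
    obtain ⟨F', h2, h3, h4⟩ := hgood.ok hA hC (fun n => ⟨univ, univ_mem, n, inter_subset_right⟩) hi
    refine ⟨F', insert i N, h2.trans hle, subset_insert _ _, ?_, h3, Or.inr h4⟩
    refine (Set.countable_singleton i).mono ?_
    rintro j ⟨hj | hj, hj'⟩
    · exact hj
    · exact absurd hj hj'

section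

variable {X : Type}

/-- the tasks -/
inductive Tk (X : Type) : Type
  | dec (x : X) (Z : Set ℕ) : Tk X
  | ok (x : X) (C : ℕ → Set ℕ) : Tk X
  | rk (x y : X) (f : ℕ → ℕ) : Tk X

/-- the task is fulfilled -/
def Res (t : Tk X) (s : X → Filter ℕ) : Prop :=
  match t with
  | Tk.dec x Z => Z ∈ s x ∨ Zᶜ ∈ s x
  | Tk.ok x C => Antitone C → (∃ n, (C n)ᶜ ∈ s x) ∨ OKFor (s x) C
  | Tk.rk x y f => x ≠ y → ∃ L : Set ℕ, f ⁻¹' L ∈ s x ∧ Lᶜ ∈ s y

theorem Res.mono {t : Tk X} {s s' : X → Filter ℕ} (h : Res t s) (hs : ∀ x, s' x ≤ s x) :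
    Res t s' := by
  cases t with
  | dec x Z =>
    rcases h with h | h
    · exact Or.inl (hs x h)
    · exact Or.inr (hs x h)
  | ok x C =>
    intro hC
    rcases h hC with ⟨n, h⟩ | ⟨D, h1, h2⟩
    · exact Or.inl ⟨n, hs x h⟩
    · exact Or.inr ⟨D, fun α => hs x (h1 α), h2⟩
  | rk x y f =>
    intro hxy
    obtain ⟨L, h1, h2⟩ := h hxy
    exact ⟨L, hs x h1, hs y h2⟩

/-- `s'` extends `s` using countably many indices -/
def Ext (s s' : X → Filter ℕ × Set (Set ℕ)) : Prop :=
  ∀ x, (s' x).1 ≤ (s x).1 ∧ (s x).2 ⊆ (s' x).2 ∧ ((s' x).2 \ (s x).2).Countable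

def GoodSt (A : Set ℕ → Set ℕ → ℕ → Set ℕ) (s : X → Filter ℕ × Set (Set ℕ)) : Prop :=
  ∀ x, Good A (s x).1 (s x).2

def Small (s : X → Filter ℕ × Set (Set ℕ)) : Prop := ∀ x, #(s x).2 < continuum

theorem exists_notMem {N : Set (Set ℕ)} (h : #N < continuum) : ∃ i, i ∉ N := by
  by_contra hcon
  push Not at hcon
  have h1 : N = Set.univ := eq_univ_of_forall hcon
  rw [h1, Cardinal.mk_univ] at h
  have h2 : #(Set ℕ) = continuum := by simp
  rw [h2] at h
  exact lt_irrefl _ h

theorem ext_update [DecidableEq X] {s : X → Filter ℕ × Set (Set ℕ)} {x : X} {F' : Filter ℕ}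
    {N' : Set (Set ℕ)} (h1 : F' ≤ (s x).1) (h2 : (s x).2 ⊆ N') (h3 : (N' \ (s x).2).Countable) :
    Ext s (Function.update s x (F', N')) := by
  intro y
  by_cases hy : y = x
  · subst hy
    rw [Function.update_self]
    exact ⟨h1, h2, h3⟩
  · rw [Function.update_of_ne hy]
    exact ⟨le_rfl, Subset.rfl, by simp⟩

theorem good_update [DecidableEq X] {s : X → Filter ℕ × Set (Set ℕ)} (hs : GoodSt A s) {x : X}
    {F' : Filter ℕ} {N' : Set (Set ℕ)} (h : Good A F' N') :
    GoodSt A (Function.update s x (F', N')) := by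
  intro y
  by_cases hy : y = x
  · subst hy
    rw [Function.update_self]
    exact h
  · rw [Function.update_of_ne hy]
    exact hs y

theorem Ext.refl (s : X → Filter ℕ × Set (Set ℕ)) : Ext s s :=
  fun _ => ⟨le_rfl, Subset.rfl, by simp⟩

/-- one step -/
theorem exists_step (hA : Linked A) (t : Tk X) {s : X → Filter ℕ × Set (Set ℕ)}
    (hs : GoodSt A s) (hsm : Small s) :
    ∃ s' : X → Filter ℕ × Set (Set ℕ), Ext s s' ∧ GoodSt A s' ∧ Res t (fun x => (s' x).1) := by
  classical
  cases t with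
  | dec x Z =>
    obtain ⟨F', N', h1, h2, h3, h4, h5⟩ := (hs x).decide Z
    refine ⟨Function.update s x (F', N'), ext_update h1 h2 h3, good_update hs h4, ?_⟩
    simpa [Res] using h5
  | ok x C =>
    by_cases hC : Antitone C
    · obtain ⟨i, hi⟩ := exists_notMem (hsm x)
      obtain ⟨F', N', h1, h2, h3, h4, h5⟩ := (hs x).ok_or hA hC hi
      refine ⟨Function.update s x (F', N'), ext_update h1 h2 h3, good_update hs h4, ?_⟩
      intro _
      simpa using h5
    · exact ⟨s, Ext.refl s, hs, fun h => absurd h hC⟩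
  | rk x y f =>
    by_cases hxy : x = y
    · exact ⟨s, Ext.refl s, hs, fun h => absurd hxy h⟩
    · obtain ⟨i, hi⟩ := exists_notMem (hsm y)
      obtain ⟨F', N', G', M', h1, h2, h3, h4, k1, k2, k3, k4, L, hL1, hL2⟩ :=
        (hs x).rk hA (hs y) f hi
      refine ⟨fun z => if z = x then (F', N') else if z = y then (G', M') else s z, ?_, ?_, ?_⟩
      · intro z
        by_cases hz : z = x
        · subst hz
          simp only [if_true]
          exact ⟨h1, h2, h3⟩
        · by_cases hz' : z = y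
          · subst hz'
            simp only [hz, if_false, if_true]
            exact ⟨k1, k2, k3⟩
          · simp only [hz, hz', if_false]
            exact ⟨le_rfl, Subset.rfl, by simp⟩
      · intro z
        by_cases hz : z = x
        · subst hz
          simp only [if_true]
          exact h4
        · by_cases hz' : z = y
          · subst hz'
            simp only [hz, if_false, if_true]
            exact k4
          · simp only [hz, hz', if_false]
            exact hs z
      · intro _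
        refine ⟨L, ?_, ?_⟩
        · simpa using hL1
        · simpa [Ne.symm hxy] using hL2

theorem mk_tk_le (hX : #X ≤ continuum) : #(Tk X) ≤ continuum := by
  let e : Tk X → (X × Set ℕ) ⊕ (X × (ℕ → Set ℕ)) ⊕ (X × X × (ℕ → ℕ)) := fun t =>
    match t with
    | Tk.dec x Z => Sum.inl (x, Z)
    | Tk.ok x C => Sum.inr (Sum.inl (x, C))
    | Tk.rk x y f => Sum.inr (Sum.inr (x, y, f))
  have he : Function.Injective e := by
    intro t t' h
    cases t <;> cases t' <;> simp [e] at h ⊢ <;> exact h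
  refine (Cardinal.mk_le_of_injective he).trans ?_
  have h1 : #(ℕ → Set ℕ) = continuum := by simp
  have h2 : #(ℕ → ℕ) = continuum := by simp
  have h3 : #(Set ℕ) = continuum := by simp
  simp only [mk_sum, mk_prod, lift_id, h1, h2, h3]
  have h4 : #X * continuum ≤ continuum :=
    (mul_le_mul_left hX continuum).trans (by simp)
  have h5 : #X * (#X * continuum) ≤ continuum :=
    (mul_le_mul' hX h4).trans (by simp)
  calc #X * continuum + (#X * continuum + #X * (#X * continuum))
      ≤ continuum + (continuum + continuum) := by gcongr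
    _ = continuum := by simp

end

/-- the index set of the recursion -/
abbrev Om : Type := (continuum.{0}).ord.ToType

theorem mk_om : #Om = continuum := by simp [Om]

theorem mk_Iio_lt (a : Om) : #(Iio a) < continuum := Cardinal.mk_Iio_toType_ord_lt a

section

variable {X : Type}

/-- the limit of the previous states -/
noncomputable def lim (a : Om) (prev : (b : Om) → b < a → X → Filter ℕ × Set (Set ℕ)) :
    X → Filter ℕ × Set (Set ℕ) :=
  fun x => (cofinite ⊓ ⨅ (b : Om) (h : b < a), (prev b h x).1, ⋃ (b : Om) (h : b < a), (prev b h x).2)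

theorem exists_run (hA : Linked A) (t : Om → Tk X) :
    ∃ pick : Om → X → Filter ℕ × Set (Set ℕ), ∀ a, GoodSt A (pick a) ∧
      (∀ b, b ≤ a → ∀ x, (pick a x).1 ≤ (pick b x).1) ∧ Res (t a) (fun x => (pick a x).1) := by
  classical
  obtain ⟨pick, hpick⟩ := wf_choice (α := Om) (β := X → Filter ℕ × Set (Set ℕ)) (· < ·)
    wellFounded_lt
    (fun a prev s => GoodSt A (lim a prev) → Small (lim a prev) →
      Ext (lim a prev) s ∧ GoodSt A s ∧ Res (t a) (fun x => (s x).1)) (by
      intro a prev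
      by_cases h : GoodSt A (lim a prev) ∧ Small (lim a prev)
      · obtain ⟨s', h1⟩ := exists_step hA (t a) h.1 h.2
        exact ⟨s', fun _ _ => h1⟩
      · exact ⟨fun _ => (⊤, ∅), fun h1 h2 => absurd ⟨h1, h2⟩ h⟩)
  refine ⟨pick, ?_⟩
  -- the main induction
  have main : ∀ a, (GoodSt A (pick a) ∧ (∀ b, b < a → ∀ x, (pick a x).1 ≤ (pick b x).1) ∧
      Res (t a) (fun x => (pick a x).1)) ∧ ∀ x, #(pick a x).2 ≤ max ℵ₀ #(Iio a) := by
    intro a
    induction a using WellFoundedLT.induction with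
    | _ a ih =>
      have hgood : GoodSt A (lim a (fun b _ => pick b)) := by
        intro x
        by_cases hne : (Iio a).Nonempty
        · have hdir : DirectedOn ((fun b => (pick b x).1) ⁻¹'o (· ≥ ·)) (Iio a) := by
            intro b hb c hc
            rcases lt_trichotomy b c with h | h | h
            · exact ⟨c, hc, ((ih c hc).1.2.1 b h x), le_rfl⟩
            · subst h
              exact ⟨b, hb, le_rfl, le_rfl⟩
            · exact ⟨b, hb, le_rfl, ((ih b hb).1.2.1 c h x)⟩
          refine ⟨inf_le_left, ?_⟩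
          intro G hG s σ hs
          have h1 : G ∈ ⨅ b ∈ Iio a, (pick b x).1 := by
            have h2 : (⨅ b ∈ Iio a, (pick b x).1) ≤ cofinite ⊓ ⨅ (b : Om) (_ : b < a), (pick b x).1 := by
              refine le_inf ?_ le_rfl
              obtain ⟨b, hb⟩ := hne
              exact (iInf₂_le b hb).trans ((ih b hb).1.1 x).cof
            exact h2 hG
          rw [Filter.mem_biInf_of_directed hdir hne] at h1
          obtain ⟨b, hb, hGb⟩ := h1
          refine ((ih b hb).1.1 x).pos G hGb s σ ?_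
          intro i hi hi'
          refine hs i hi ?_
          simp only [lim, mem_iUnion]
          exact ⟨b, hb, hi'⟩
        · have h1 : (lim a (fun b _ => pick b) x).1 = cofinite := by
            simp only [lim]
            rw [inf_eq_left]
            refine le_iInf₂ fun b hb => ?_
            exact absurd ⟨b, hb⟩ hne
          have h2 := good_cofinite hA
          refine ⟨by rw [h1], fun G hG s σ _ => ?_⟩
          rw [h1] at hG
          exact h2.pos G hG s σ (by simp)
      have hcard : ∀ x, #(lim a (fun b _ => pick b) x).2 ≤ max ℵ₀ #(Iio a) := by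
        intro x
        have h1 : (lim a (fun b _ => pick b) x).2 = ⋃ b ∈ Iio a, (pick b x).2 := by
          simp only [lim]
          rfl
        rw [h1]
        refine (Cardinal.mk_biUnion_le _ _).trans ?_
        have h2 : (⨆ b : Iio a, #(pick b.1 x).2) ≤ max ℵ₀ #(Iio a) := by
          apply ciSup_le'
          rintro ⟨b, hb⟩
          refine ((ih b hb).2 x).trans ?_
          exact max_le_max le_rfl (Cardinal.mk_le_mk_of_subset (Iio_subset_Iio (le_of_lt hb)))
        calc #(Iio a) * (⨆ b : Iio a, #(pick b.1 x).2)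
            ≤ max ℵ₀ #(Iio a) * max ℵ₀ #(Iio a) := mul_le_mul' (le_max_right _ _) h2
          _ = max ℵ₀ #(Iio a) := Cardinal.mul_eq_self (le_max_left _ _)
      have hκ : max ℵ₀ #(Iio a) < continuum := max_lt Cardinal.aleph0_lt_continuum (mk_Iio_lt a)
      have hsmall : Small (lim a (fun b _ => pick b)) := fun x => lt_of_le_of_lt (hcard x) hκ
      obtain ⟨h1, h2, h3⟩ := hpick a hgood hsmall
      refine ⟨⟨h2, ?_, h3⟩, ?_⟩
      · intro b hb x
        refine (h1 x).1.trans ?_
        simp only [lim]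
        exact inf_le_right.trans (iInf₂_le b hb)
      · intro x
        have h4 : (pick a x).2 ⊆ (lim a (fun b _ => pick b) x).2 ∪
            ((pick a x).2 \ (lim a (fun b _ => pick b) x).2) := by
          intro i hi
          by_cases h : i ∈ (lim a (fun b _ => pick b) x).2
          · exact Or.inl h
          · exact Or.inr ⟨hi, h⟩
        refine (Cardinal.mk_le_mk_of_subset h4).trans ((Cardinal.mk_union_le _ _).trans ?_)
        have h5 : #↑((pick a x).2 \ (lim a (fun b _ => pick b) x).2) ≤ ℵ₀ :=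
          Cardinal.le_aleph0_iff_set_countable.2 (h1 x).2.2
        calc _ ≤ max ℵ₀ #(Iio a) + max ℵ₀ #(Iio a) :=
              add_le_add (hcard x) (h5.trans (le_max_left _ _))
          _ = max ℵ₀ #(Iio a) := Cardinal.add_eq_self (le_max_left _ _)
  intro a
  refine ⟨(main a).1.1, ?_, (main a).1.2.2⟩
  intro b hb x
  rcases lt_or_eq_of_le hb with h | h
  · exact (main a).1.2.1 b h x
  · subst h
    exact le_rfl

/-- **Kunen's theorem**, for `𝔠` many ultrafilters at once. -/
theorem exists_family (X : Type) (hX : #X ≤ continuum) : ∃ u : X → Ultrafilter ℕ,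
    (∀ x, (u x : Filter ℕ) ≤ cofinite) ∧
    (∀ x (C : ℕ → Set ℕ), Antitone C → (∀ n, C n ∈ u x) → OKFor (u x) C) ∧
    ∀ x y, x ≠ y → ∀ f : ℕ → ℕ, (u x).map f ≠ u y := by
  classical
  by_cases hne : Nonempty X
  swap
  · exact ⟨fun x => absurd ⟨x⟩ hne, fun x => absurd ⟨x⟩ hne, fun x => absurd ⟨x⟩ hne,
      fun x => absurd ⟨x⟩ hne⟩
  obtain ⟨x0⟩ := hne
  obtain ⟨A, hA1, hA2, hA3⟩ := exists_linked
  have hA : Linked A := ⟨hA1, hA2, hA3⟩
  have : Nonempty (Tk X) := ⟨Tk.dec x0 ∅⟩
  obtain ⟨e⟩ : Nonempty (Tk X ↪ Om) := by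
    have : #(Tk X) ≤ #Om := (mk_tk_le hX).trans mk_om.ge
    exact this
  obtain ⟨pick, hpick⟩ := exists_run (X := X) hA (Function.invFun e)
  have ht : ∀ t : Tk X, ∃ a : Om, Res t (fun x => (pick a x).1) := by
    intro t
    obtain ⟨a, ha⟩ := Function.invFun_surjective e.injective t
    exact ⟨a, ha ▸ (hpick a).2.2⟩
  obtain ⟨a0, _⟩ := ht (Tk.dec x0 ∅)
  have hneOm : Nonempty Om := ⟨a0⟩
  let F : X → Filter ℕ := fun x => ⨅ a, (pick a x).1
  have hF : ∀ x, (F x).NeBot := by
    intro x
    have hdir : Directed (· ≥ ·) (fun a => (pick a x).1) := by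
      intro a b
      rcases le_total a b with h | h
      · exact ⟨b, (hpick b).2.1 a h x, le_rfl⟩
      · exact ⟨a, le_rfl, (hpick a).2.1 b h x⟩
    have : ∀ a, (pick a x).1.NeBot := fun a => ((hpick a).1 x).neBot
    exact Filter.iInf_neBot_of_directed' hdir this
  let u : X → Ultrafilter ℕ := fun x => Ultrafilter.of (F x)
  have hu : ∀ x a, (u x : Filter ℕ) ≤ (pick a x).1 := fun x a =>
    (Ultrafilter.of_le (F x)).trans (iInf_le _ a)
  have hres : ∀ t : Tk X, Res t (fun x => (u x : Filter ℕ)) := by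
    intro t
    obtain ⟨a, ha⟩ := ht t
    exact ha.mono fun x => hu x a
  refine ⟨u, fun x => (hu x a0).trans ((hpick a0).1 x).cof, ?_, ?_⟩
  · intro x C hC hCu
    rcases hres (Tk.ok x C) hC with ⟨n, hn⟩ | h
    · exact absurd (hCu n) (Ultrafilter.compl_mem_iff_notMem.1 hn)
    · exact h
  · intro x y hxy f hf
    obtain ⟨L, h1, h2⟩ := hres (Tk.rk x y f) hxy
    have h3 : L ∈ (u x).map f := h1
    rw [hf] at h3
    exact (Ultrafilter.compl_mem_iff_notMem.1 h2) h3

end

end Pool.Agent.R595.Kun
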