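import Pool.Agent.R595.Linked

/-!
# The steps of Kunen's construction
-/

set_option autoImplicit false

namespace Pool.Agent.R595.Kun

open Filter Set

/-- independent linked families -/
structure Linked (A : Set ℕ → Set ℕ → ℕ → Set ℕ) : Prop where
  mono : ∀ i α n m, n ≤ m → A i α n ⊆ A i α m
  linked : ∀ i n (a : Finset (Set ℕ)), n < a.card → (⋂ α ∈ a, A i α n).Finite
  indep : ∀ (s : Finset (Set ℕ)) (σ : Set ℕ → Finset (Set ℕ)),
      (⋂ i ∈ s, ⋂ α ∈ σ i, A i α (σ i).card).Infinite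

/-- the finite intersections -/
def XX (A : Set ℕ → Set ℕ → ℕ → Set ℕ) (s : Finset (Set ℕ)) (σ : Set ℕ → Finset (Set ℕ)) : Set ℕ :=
  ⋂ i ∈ s, ⋂ α ∈ σ i, A i α (σ i).card

/-- the family is independent modulo `F` off the set `N` of the used indices -/
structure Good (A : Set ℕ → Set ℕ → ℕ → Set ℕ) (F : Filter ℕ) (N : Set (Set ℕ)) : Prop where
  cof : F ≤ cofinite
  pos : ∀ G ∈ F, ∀ (s : Finset (Set ℕ)) (σ : Set ℕ → Finset (Set ℕ)), (∀ i ∈ s, i ∉ N) →
    (G ∩ XX A s σ).Nonempty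

variable {A : Set ℕ → Set ℕ → ℕ → Set ℕ}

theorem mem_XX {s : Finset (Set ℕ)} {σ : Set ℕ → Finset (Set ℕ)} {z : ℕ} :
    z ∈ XX A s σ ↔ ∀ i ∈ s, ∀ α ∈ σ i, z ∈ A i α (σ i).card := by
  simp only [XX, mem_iInter]

theorem Good.neBot {F : Filter ℕ} {N : Set (Set ℕ)} (h : Good A F N) : F.NeBot := by
  rw [← Filter.forall_mem_nonempty_iff_neBot]
  intro G hG
  obtain ⟨z, hz, _⟩ := h.pos G hG ∅ (fun _ => ∅) (by simp)
  exact ⟨z, hz⟩

theorem good_cofinite (hA : Linked A) : Good A cofinite ∅ := by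
  refine ⟨le_rfl, fun G hG s σ _ => ?_⟩
  have h1 := hA.indep s σ
  obtain ⟨z, hz1, hz2⟩ := (h1.sdiff (show (Gᶜ).Finite from hG)).nonempty
  refine ⟨z, ?_, hz1⟩
  by_contra hcon
  exact hz2 hcon

theorem Good.adjoin {F : Filter ℕ} {N N' : Set (Set ℕ)} (h : Good A F N) {Z : Set ℕ}
    (hZ : ∀ G ∈ F, ∀ (s : Finset (Set ℕ)) (σ : Set ℕ → Finset (Set ℕ)), (∀ i ∈ s, i ∉ N') →
      (G ∩ Z ∩ XX A s σ).Nonempty) : Good A (F ⊓ 𝓟 Z) N' := by
  refine ⟨inf_le_left.trans h.cof, fun G hG s σ hs => ?_⟩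
  rw [mem_inf_principal] at hG
  obtain ⟨z, ⟨hz1, hz2⟩, hz3⟩ := hZ _ hG s σ hs
  exact ⟨z, hz1 hz2, hz3⟩

/-- combining two finite intersections -/
theorem XX_union {s s0 : Finset (Set ℕ)} {σ σ0 : Set ℕ → Finset (Set ℕ)}
    (hd : ∀ i ∈ s, i ∉ s0) {z : ℕ}
    (hz : z ∈ XX A (by classical exact s ∪ s0) (by classical exact fun i => if i ∈ s0 then σ0 i else σ i)) :
    z ∈ XX A s σ ∧ z ∈ XX A s0 σ0 := by
  classical
  rw [mem_XX] at hz
  constructor
  · rw [mem_XX]
    intro i hi α hα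
    have h1 : i ∉ s0 := hd i hi
    have h2 := hz i (Finset.mem_union_left _ hi) α (by simpa [h1] using hα)
    simpa [h1] using h2
  · rw [mem_XX]
    intro i hi α hα
    have h2 := hz i (Finset.mem_union_right _ hi) α (by simpa [hi] using hα)
    simpa [hi] using h2

/-- one more index -/
theorem XX_insert {s : Finset (Set ℕ)} {σ : Set ℕ → Finset (Set ℕ)} {i : Set ℕ}
    (hi : i ∉ s) {a : Finset (Set ℕ)} {z : ℕ}
    (hz : z ∈ XX A (by classical exact insert i s) (by classical exact fun j => if j = i then a else σ j)) :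
    z ∈ XX A s σ ∧ ∀ α ∈ a, z ∈ A i α a.card := by
  classical
  rw [mem_XX] at hz
  constructor
  · rw [mem_XX]
    intro j hj α hα
    have h1 : j ≠ i := fun h => hi (h ▸ hj)
    have h2 := hz j (Finset.mem_insert_of_mem hj) α (by simpa [h1] using hα)
    simpa [h1] using h2
  · intro α hα
    have h2 := hz i (Finset.mem_insert_self _ _) α (by simpa using hα)
    simpa using h2

/-- **Step 1**: deciding a set. -/
theorem Good.decide {F : Filter ℕ} {N : Set (Set ℕ)} (h : Good A F N) (Z : Set ℕ) :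
    ∃ (F' : Filter ℕ) (N' : Set (Set ℕ)), F' ≤ F ∧ N ⊆ N' ∧ (N' \ N).Countable ∧ Good A F' N' ∧
      (Z ∈ F' ∨ Zᶜ ∈ F') := by
  classical
  by_cases hZ : ∀ G ∈ F, ∀ (s : Finset (Set ℕ)) (σ : Set ℕ → Finset (Set ℕ)), (∀ i ∈ s, i ∉ N) →
      (G ∩ Z ∩ XX A s σ).Nonempty
  · exact ⟨F ⊓ 𝓟 Z, N, inf_le_left, Subset.rfl, by simp, h.adjoin hZ,
      Or.inl (mem_inf_of_right (mem_principal_self Z))⟩
  · push Not at hZ
    obtain ⟨G, hG, s0, σ0, hs0, hemp⟩ := hZ
    refine ⟨F ⊓ 𝓟 (XX A s0 σ0), N ∪ (s0 : Set (Set ℕ)), inf_le_left, subset_union_left, ?_, ?_,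
      Or.inr ?_⟩
    · refine (s0.finite_toSet.countable).mono ?_
      rintro i ⟨hi | hi, hi'⟩
      · exact absurd hi hi'
      · exact hi
    · apply h.adjoin
      intro G' hG' s σ hs
      have h1 := h.pos G' hG' (s ∪ s0) (fun i => if i ∈ s0 then σ0 i else σ i) (by
        intro i hi
        rcases Finset.mem_union.1 hi with hi | hi
        · exact fun h' => hs i hi (Or.inl h')
        · exact hs0 i hi)
      obtain ⟨z, hz1, hz2⟩ := h1
      have h2 := XX_union (A := A) (s := s) (s0 := s0) (σ := σ) (σ0 := σ0)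
        (fun i hi h' => hs i hi (Or.inr h')) (z := z) (by convert hz2)
      exact ⟨z, ⟨hz1, h2.2⟩, h2.1⟩
    · rw [mem_inf_principal]
      refine Filter.mem_of_superset hG ?_
      intro z hz hz2 hz3
      have : z ∈ G ∩ Z ∩ XX A s0 σ0 := ⟨⟨hz, hz3⟩, hz2⟩
      rw [hemp] at this
      exact this

/-- the filter generated by `F` and the sets `D α` -/
def addAll (F : Filter ℕ) (D : Set ℕ → Set ℕ) : Filter ℕ where
  sets := {S | ∃ G ∈ F, ∃ a : Finset (Set ℕ), G ∩ (⋂ α ∈ a, D α) ⊆ S}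
  univ_sets := ⟨univ, univ_mem, ∅, subset_univ _⟩
  sets_of_superset := by
    rintro S T ⟨G, hG, a, ha⟩ hST
    exact ⟨G, hG, a, ha.trans hST⟩
  inter_sets := by
    classical
    rintro S T ⟨G, hG, a, ha⟩ ⟨G', hG', a', ha'⟩
    refine ⟨G ∩ G', inter_mem hG hG', a ∪ a', ?_⟩
    rintro z ⟨⟨hz1, hz2⟩, hz3⟩
    simp only [mem_iInter] at hz3
    refine ⟨ha ⟨hz1, ?_⟩, ha' ⟨hz2, ?_⟩⟩
    · simp only [mem_iInter]
      exact fun α hα => hz3 α (Finset.mem_union_left _ hα)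
    · simp only [mem_iInter]
      exact fun α hα => hz3 α (Finset.mem_union_right _ hα)

theorem mem_addAll {F : Filter ℕ} {D : Set ℕ → Set ℕ} {S : Set ℕ} :
    S ∈ addAll F D ↔ ∃ G ∈ F, ∃ a : Finset (Set ℕ), G ∩ (⋂ α ∈ a, D α) ⊆ S := Iff.rfl

/-- `F` contains sets witnessing the OK property for the sequence `C` -/
def OKFor (F : Filter ℕ) (C : ℕ → Set ℕ) : Prop :=
  ∃ D : Set ℕ → Set ℕ, (∀ α, D α ∈ F) ∧
    ∀ a : Finset (Set ℕ), a.Nonempty → ((⋂ α ∈ a, D α) \ C a.card).Finite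

/-- **Step 2**: the OK property for one sequence. -/
theorem Good.ok (hA : Linked A) {F : Filter ℕ} {N : Set (Set ℕ)} (h : Good A F N)
    {C : ℕ → Set ℕ} (hC : Antitone C) (hCF : ∀ n, C n ∈ F) {i : Set ℕ} (hi : i ∉ N) :
    ∃ F' : Filter ℕ, F' ≤ F ∧ Good A F' (insert i N) ∧ OKFor F' C := by
  classical
  let D : Set ℕ → Set ℕ := fun α => C 0 ∩ {z | ∀ m, z ∈ C m → z ∉ C (m + 1) → z ∈ A i α m}
  have hle : addAll F D ≤ F := fun G hG => ⟨G, hG, ∅, inter_subset_left⟩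
  refine ⟨addAll F D, hle, ⟨hle.trans h.cof, ?_⟩, D, ?_, ?_⟩
  · rintro S ⟨G, hG, a, ha⟩ s σ hs
    have his : i ∉ s := fun h' => hs i h' (mem_insert i N)
    have h1 := h.pos (G ∩ C a.card) (inter_mem hG (hCF _)) (insert i s)
      (fun j => if j = i then a else σ j) (by
        intro j hj
        rcases Finset.mem_insert.1 hj with rfl | hj
        · exact hi
        · exact fun h' => hs j hj (mem_insert_of_mem _ h'))
    obtain ⟨z, ⟨hz1, hz2⟩, hz3⟩ := h1
    have h2 := XX_insert (A := A) (s := s) (σ := σ) (i := i) his (a := a) (z := z) (by convert hz3)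
    refine ⟨z, ha ⟨hz1, ?_⟩, h2.1⟩
    simp only [mem_iInter]
    intro α hα
    refine ⟨hC (Nat.zero_le _) hz2, ?_⟩
    intro m hm hm'
    have hkm : a.card ≤ m := by
      by_contra hcon
      push Not at hcon
      exact hm' (hC (show m + 1 ≤ a.card from hcon) hz2)
    exact hA.mono i α _ _ hkm (h2.2 α hα)
  · intro α
    exact ⟨univ, univ_mem, {α}, by simp⟩
  · intro a ha
    obtain ⟨α0, hα0⟩ := ha
    have hfin : (⋃ m ∈ Finset.range a.card, ⋂ α ∈ a, A i α m).Finite := by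
      apply Set.Finite.biUnion (Finset.finite_toSet _)
      intro m hm
      exact hA.linked i m a (Finset.mem_range.1 hm)
    refine hfin.subset ?_
    rintro z ⟨hz1, hz2⟩
    simp only [mem_iInter] at hz1
    have h0 : z ∈ C 0 := (hz1 α0 hα0).1
    -- the last `m` with `z ∈ C m`
    have hex : ∃ m, z ∉ C m := ⟨_, hz2⟩
    let n := Nat.find hex
    have hn : z ∉ C n := Nat.find_spec hex
    have hn0 : n ≠ 0 := by
      intro h'
      rw [h'] at hn
      exact hn h0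
    obtain ⟨m, hm⟩ := Nat.exists_eq_succ_of_ne_zero hn0
    have hm1 : z ∈ C m := by
      by_contra hcon
      have := Nat.find_min' hex hcon
      change n ≤ m at this
      omega
    have hm2 : z ∉ C (m + 1) := by
      have := hn
      rw [hm] at this
      exact this
    have hmlt : m < a.card := by
      have h3 : n ≤ a.card := Nat.find_min' hex hz2
      omega
    simp only [mem_iUnion, mem_iInter]
    exact ⟨m, Finset.mem_range.2 hmlt, fun α hα => (hz1 α hα).2 m hm1 hm2⟩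

/-- **Step 3**: `f` does not map the first ultrafilter to the second one. -/
theorem Good.rk (hA : Linked A) {F G : Filter ℕ} {N M : Set (Set ℕ)} (hF : Good A F N)
    (hG : Good A G M) (f : ℕ → ℕ) {i : Set ℕ} (hi : i ∉ M) :
    ∃ (F' : Filter ℕ) (N' : Set (Set ℕ)) (G' : Filter ℕ) (M' : Set (Set ℕ)),
      F' ≤ F ∧ N ⊆ N' ∧ (N' \ N).Countable ∧ Good A F' N' ∧
      G' ≤ G ∧ M ⊆ M' ∧ (M' \ M).Countable ∧ Good A G' M' ∧
      ∃ L : Set ℕ, f ⁻¹' L ∈ F' ∧ Lᶜ ∈ G' := by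
  classical
  obtain ⟨F', N', h1, h2, h3, h4, h5⟩ := hF.decide (f ⁻¹' A i ∅ 1)
  have hcount : ((insert i M) \ M).Countable := by
    refine (Set.countable_singleton i).mono ?_
    rintro j ⟨hj | hj, hj'⟩
    · exact hj
    · exact absurd hj hj'
  have hdis : ∀ (s : Finset (Set ℕ)), (∀ j ∈ s, j ∉ insert i M) →
      i ∉ s ∧ ∀ j ∈ insert i s, j ∉ M := by
    intro s hs
    refine ⟨fun h' => hs i h' (mem_insert i M), ?_⟩
    intro j hj
    rcases Finset.mem_insert.1 hj with rfl | hj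
    · exact hi
    · exact fun h' => hs j hj (mem_insert_of_mem _ h')
  rcases h5 with h5 | h5
  · refine ⟨F', N', G ⊓ 𝓟 (A i ∅ 1)ᶜ, insert i M, h1, h2, h3, h4, inf_le_left,
      subset_insert _ _, hcount, ?_, A i ∅ 1, h5, mem_inf_of_right (mem_principal_self _)⟩
    apply hG.adjoin
    intro H hH s σ hs
    obtain ⟨his, hs'⟩ := hdis s hs
    have hfin : (⋂ α ∈ ({∅, univ} : Finset (Set ℕ)), A i α 1).Finite := by
      apply hA.linked
      rw [Finset.card_pair (Set.empty_ne_univ)]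
      norm_num
    have h6 : (⋂ α ∈ ({∅, univ} : Finset (Set ℕ)), A i α 1)ᶜ ∈ G := hG.cof hfin.compl_mem_cofinite
    obtain ⟨z, ⟨hz1, hz2⟩, hz3⟩ := hG.pos _ (inter_mem hH h6) (insert i s)
      (fun j => if j = i then {univ} else σ j) hs'
    have h7 := XX_insert (A := A) (s := s) (σ := σ) (i := i) his (a := {univ}) (z := z)
      (by convert hz3)
    refine ⟨z, ⟨hz1, ?_⟩, h7.1⟩
    intro hz4
    apply hz2
    simp only [mem_iInter]
    intro α hα
    rcases Finset.mem_insert.1 hα with rfl | hα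
    · exact hz4
    · rw [Finset.mem_singleton] at hα
      subst hα
      have := h7.2 univ (Finset.mem_singleton_self _)
      simpa using this
  · refine ⟨F', N', G ⊓ 𝓟 (A i ∅ 1), insert i M, h1, h2, h3, h4, inf_le_left,
      subset_insert _ _, hcount, ?_, (A i ∅ 1)ᶜ, h5, ?_⟩
    · apply hG.adjoin
      intro H hH s σ hs
      obtain ⟨his, hs'⟩ := hdis s hs
      obtain ⟨z, hz1, hz3⟩ := hG.pos _ hH (insert i s) (fun j => if j = i then {∅} else σ j) hs'
      have h7 := XX_insert (A := A) (s := s) (σ := σ) (i := i) his (a := {∅}) (z := z)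
        (by convert hz3)
      refine ⟨z, ⟨hz1, ?_⟩, h7.1⟩
      have := h7.2 ∅ (Finset.mem_singleton_self _)
      simpa using this
    · rw [compl_compl]
      exact mem_inf_of_right (mem_principal_self _)

end Pool.Agent.R595.Kun
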